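import Mathlib

/-!
# Jets of polynomials: definitions
-/

namespace Pool.Agent.Helper650_Lossy

/-- `X` and the first `t` derivatives (from the `0`-th on) of `f` -/
noncomputable def jet {F : Type*} [Field F] (t : ℕ) (f : Polynomial F) :
    Fin (t + 1) → Polynomial F :=
  Fin.cons Polynomial.X (fun i : Fin t => (Polynomial.derivative^[i.val]) f)

/-- the values at `y` of `X` and the first `t` derivatives of `f` -/
noncomputable def jetAt {F : Type*} [Field F] (t : ℕ) (f : Polynomial F) (y : F) :
    Fin (t + 1) → F :=
  Fin.cons y (fun i : Fin t => ((Polynomial.derivative^[i.val]) f).eval y)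

end Pool.Agent.Helper650_Lossy
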