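import Pool.Agent.Helper650_HSK.KernelPoly
import Pool.Agent.Helper650_HSK.Hash
import Pool.Agent.Helper650_HSK.Prm

/-!
# Near-linear lossy kernels: definitions
-/

namespace Pool.Agent.Helper650_Lossy

open Pool.Agent.NPC Pool.Agent.Helper650_HSK
open List (range)

/-- sum of the terms of the `i`-th derivative at `y` of the polynomial whose coefficients are the first
digits of `v` in base `p` -/
def dsum (p v y i : ℕ) : ℕ → ℕ
  | 0 => 0
  | R + 1 => dsum p v y i R + v / p ^ R % p * (R.descFactorial i * y ^ (R - i))

/-- the value modulo `p` at `y` of the `i`-th derivative of the polynomial whose coefficients are the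
first `R` digits of `v` in base `p` -/
def dv (p R v y i : ℕ) : ℕ := dsum p v y i R % p

/-- the position of the vertex `v` for the seed `y`: the number with the digits `y` and `dv p R v y i`,
`i < t`, in base `p` -/
def pos (p R v y : ℕ) : ℕ → ℕ
  | 0 => y
  | t + 1 => pos p R v y t * p + dv p R v y t

/-- the edges obtained from `e` by replacing each vertex `v` by a position `P v y`, `y < p` -/
def choices (P : ℕ → ℕ → ℕ) (d p : ℕ) (e : List ℕ) : List (List ℕ) :=
  (tup p d).map (fun ys => ((e.zip ys).map (fun q => P q.1 q.2)).dedup)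

/-- all edges obtained in this way -/
def prodE (P : ℕ → ℕ → ℕ) (d p : ℕ) (E : List (List ℕ)) : List (List ℕ) :=
  E.flatMap (choices P d p)

/-- the greedy kernel for the parameter `2 k` -/
def red (d : ℕ) (x : Inst) : Inst := shrink d (x.1, 2 * x.2)

/-- the vertices kept by the greedy kernel for the parameter `2 k` -/
def redV (d : ℕ) (x : Inst) : List ℕ := (greedy d (2 * x.2) x.1.2).flatten.dedup

/-- the least `b ≥ b0` with `4 k + 2 < b ^ e` -/
def bb (e b0 k : ℕ) : ℕ :=
  ((range (b0 + 4 * k + 4)).filter (fun b => decide (b0 ≤ b) && decide (4 * k + 2 < b ^ e))).headD 0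

/-- a prime between `b ^ M` and `2 b ^ M` -/
def pp (M b : ℕ) : ℕ :=
  ((range (2 * b ^ M + 1)).filter (fun q => isP q && decide (b ^ M ≤ q))).headD 0

/-- the reduction -/
def lossyK (d R M e b0 : ℕ) (x : Inst) : Inst :=
  bif decide ((red d x).1.1 ≤ x.2) then ((red d x).1, x.2) else
    ((pp M (bb e b0 (min x.2 (red d x).1.1)) ^ M,
      prodE (fun v y => pos (pp M (bb e b0 (min x.2 (red d x).1.1))) R v y (M - 1)) d
        (pp M (bb e b0 (min x.2 (red d x).1.1))) (red d x).1.2),
      pp M (bb e b0 (min x.2 (red d x).1.1)) * x.2)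

/-- the lifting of solutions -/
def lossyL (d R M e b0 : ℕ) (z : Inst × List ℕ) : List ℕ :=
  bif decide ((red d z.1).1.1 ≤ z.1.2) then
    (redV d z.1).filter (fun v => decide ((redV d z.1).idxOf v ∈ z.2)) else
    (redV d z.1).filter (fun v =>
      (range (pp M (bb e b0 (min z.1.2 (red d z.1).1.1)))).all (fun y =>
        decide (pos (pp M (bb e b0 (min z.1.2 (red d z.1).1.1))) R ((redV d z.1).idxOf v) y (M - 1)
          ∈ z.2)))

end Pool.Agent.Helper650_Lossy
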