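import Pool.Agent.Helper650_Lossy.Alg

/-!
# Simple facts on polynomials

Part 1: if some `i.succ` is a variable of `Q`, take the largest such `j`.  The variables above
`j.succ` have `degreeOf = 0`.  Take a monomial of `Q` whose exponent of `j.succ` is positive: it is less than
`p`, so its derivative has a nonzero coefficient (the exponents of monomials are at most the total degree).
The total degree decreases.  Part 2: every component of `jet t f` has degree at most `R`.  Part 3:
evaluation is a ring homomorphism.  Part 4: `P` has at most `natDegree P` roots and `ZMod p` has `p`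
elements.  Part 5: `Q` is a polynomial in the variable `0` only, and `jet t f 0 = X`: so `aeval` gives the
same polynomial in one variable (for example: apply `aeval` at the family which is `X` at `0` and `0`
elsewhere; `MvPolynomial.rename`, `MvPolynomial.exists_rename_eq_of_vars_subset_range` or a direct
comparison of the coefficients may help).
-/

namespace Pool.Agent.Helper650_Lossy

/-- Main statement 1 of this file. -/
theorem ml_top (p : ℕ) [Fact p.Prime] (t : ℕ) (Q : MvPolynomial (Fin (t + 1)) (ZMod p))
    (hdeg : Q.totalDegree < p) :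
    (∀ i : Fin t, i.succ ∉ Q.vars) ∨
      ∃ j : Fin t, (∀ i : Fin (t + 1), j.succ < i → Q.degreeOf i = 0) ∧
        MvPolynomial.pderiv j.succ Q ≠ 0 ∧
        (MvPolynomial.pderiv j.succ Q).totalDegree < Q.totalDegree := by
  classical
  by_cases h : ∀ i : Fin t, i.succ ∉ Q.vars
  · exact Or.inl h
  right
  push Not at h
  obtain ⟨i0, hi0⟩ := h
  obtain ⟨j, hj, hmax⟩ := (Finset.univ.filter (fun i : Fin t => i.succ ∈ Q.vars)).exists_max_image
    (fun i => i) ⟨i0, by simpa using hi0⟩
  simp only [Finset.mem_filter, Finset.mem_univ, true_and] at hj hmax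
  refine ⟨j, ?_, ?_, ?_⟩
  · intro i hi
    obtain ⟨k, rfl⟩ : ∃ k : Fin t, k.succ = i := by
      refine Fin.exists_succ_eq.2 ?_
      rintro rfl
      exact absurd hi (Fin.not_lt_zero _)
    have h1 : k.succ ∉ Q.vars := by
      intro h2
      have h3 := hmax k h2
      exact absurd (Fin.succ_lt_succ_iff.1 hi) (not_lt.2 h3)
    by_contra h2
    apply h1
    rw [MvPolynomial.degreeOf_def] at h2
    rw [MvPolynomial.vars_def, Multiset.mem_toFinset]
    exact Multiset.one_le_count_iff_mem.1 (Nat.one_le_iff_ne_zero.2 h2)
  · obtain ⟨m, hm, hmj⟩ := (MvPolynomial.mem_vars_iff_mem_support _).1 hj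
    have hmj' : m j.succ ≠ 0 := Finsupp.mem_support_iff.1 hmj
    have hle : m j.succ ≤ Q.totalDegree := by
      refine le_trans ?_ (MvPolynomial.le_totalDegree hm)
      exact Finset.single_le_sum (f := fun i => m i) (fun _ _ => Nat.zero_le _) hmj
    intro h0
    have h1 := MvPolynomial.coeff_pderiv (i := j.succ) Q (m - Finsupp.single j.succ 1)
    have h2 : m - Finsupp.single j.succ 1 + Finsupp.single j.succ 1 = m := by
      refine tsub_add_cancel_of_le ?_
      rw [Finsupp.single_le_iff]
      exact Nat.one_le_iff_ne_zero.2 hmj'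
    rw [h0, h2, MvPolynomial.coeff_zero] at h1
    have h3 : MvPolynomial.coeff m Q ≠ 0 := MvPolynomial.mem_support_iff.1 hm
    have h4 : (((m - Finsupp.single j.succ 1 : Fin (t + 1) →₀ ℕ) j.succ : ℕ) : ZMod p) + 1 =
        (m j.succ : ℕ) := by
      rw [← Nat.cast_succ]
      congr 1
      simp only [Finsupp.coe_tsub, Pi.sub_apply, Finsupp.single_eq_same]
      omega
    rw [h4] at h1
    rcases mul_eq_zero.1 h1.symm with h5 | h5
    · exact h3 h5
    · rw [ZMod.natCast_eq_zero_iff] at h5
      exact absurd (Nat.le_of_dvd (Nat.pos_of_ne_zero hmj') h5) (not_le.2 (hle.trans_lt hdeg))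
  · have hpos : 0 < Q.totalDegree := by
      obtain ⟨m, hm, hmj⟩ := (MvPolynomial.mem_vars_iff_mem_support _).1 hj
      have hmj' : m j.succ ≠ 0 := Finsupp.mem_support_iff.1 hmj
      refine lt_of_lt_of_le (Nat.pos_of_ne_zero hmj') ?_
      refine le_trans ?_ (MvPolynomial.le_totalDegree hm)
      exact Finset.single_le_sum (f := fun i => m i) (fun _ _ => Nat.zero_le _) hmj
    rw [MvPolynomial.totalDegree, Finset.sup_lt_iff (by simpa using hpos)]
    intro m hm
    have h1 := MvPolynomial.mem_support_iff.1 hm
    rw [MvPolynomial.coeff_pderiv] at h1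
    have h2 : MvPolynomial.coeff (m + Finsupp.single j.succ 1) Q ≠ 0 := left_ne_zero_of_mul h1
    have h3 := MvPolynomial.le_totalDegree (MvPolynomial.mem_support_iff.2 h2)
    have h4 : ((m + Finsupp.single j.succ 1).sum fun _ e => e) = (m.sum fun _ e => e) + 1 := by
      rw [Finsupp.sum_add_index' (by simp) (by simp), Finsupp.sum_single_index rfl]
    rw [h4] at h3
    exact h3

/-- Main statement 2 of this file. -/
theorem ml_deg {F : Type*} [Field F] (R t : ℕ) (hR : 1 ≤ R) (f : Polynomial F)
    (hf : f.natDegree < R) (Q : MvPolynomial (Fin (t + 1)) F) :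
    (MvPolynomial.aeval (jet t f) Q).natDegree ≤ R * Q.totalDegree := by
  have hder : ∀ k : ℕ, ((Polynomial.derivative^[k]) f).natDegree ≤ f.natDegree := by
    intro k
    exact (Polynomial.natDegree_iterate_derivative f k).trans (Nat.sub_le _ _)
  have hjet : ∀ i, (jet t f i).natDegree ≤ R := by
    intro i
    refine Fin.cases ?_ (fun i => ?_) i
    · exact (Polynomial.natDegree_X_le).trans hR
    · exact (hder i.val).trans hf.le
  rw [MvPolynomial.aeval_def, MvPolynomial.eval₂_eq]
  refine Polynomial.natDegree_sum_le_of_forall_le _ _ fun m hm => ?_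
  have h1 : (∏ i ∈ m.support, jet t f i ^ m i).natDegree ≤ R * (m.sum fun _ e => e) := by
    refine (Polynomial.natDegree_prod_le _ _).trans ?_
    rw [Finsupp.sum, Finset.mul_sum]
    refine Finset.sum_le_sum fun i _ => ?_
    refine Polynomial.natDegree_pow_le.trans ?_
    rw [mul_comm]
    exact Nat.mul_le_mul_right _ (hjet i)
  have h2 : (algebraMap F (Polynomial F) (MvPolynomial.coeff m Q) *
      ∏ i ∈ m.support, jet t f i ^ m i).natDegree ≤ R * (m.sum fun _ e => e) := by
    refine Polynomial.natDegree_mul_le.trans ?_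
    rw [Polynomial.algebraMap_eq, Polynomial.natDegree_C, zero_add]
    exact h1
  exact h2.trans (Nat.mul_le_mul_left _ (MvPolynomial.le_totalDegree hm))

/-- Main statement 3 of this file. -/
theorem ml_eval {F : Type*} [Field F] (t : ℕ) (f : Polynomial F) (y : F)
    (Q : MvPolynomial (Fin (t + 1)) F) :
    (MvPolynomial.aeval (jet t f) Q).eval y = MvPolynomial.eval (jetAt t f y) Q := by
  have hj : ∀ i, (jet t f i).eval y = jetAt t f y i := by
    intro i
    refine Fin.cases ?_ (fun i => ?_) i
    · simp [jet, jetAt]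
    · simp [jet, jetAt]
  induction Q using MvPolynomial.induction_on with
  | C a => simp
  | add p q hp hq => rw [map_add, Polynomial.eval_add, hp, hq, map_add]
  | mul_X p i hp =>
    rw [map_mul, Polynomial.eval_mul, hp, map_mul, MvPolynomial.aeval_X, MvPolynomial.eval_X, hj]

/-- Main statement 4 of this file. -/
theorem ml_roots (p : ℕ) [Fact p.Prime] (P : Polynomial (ZMod p)) (hP : P ≠ 0) :
    p ≤ P.natDegree + ((Finset.univ : Finset (ZMod p)).filter (fun y => P.eval y ≠ 0)).card := by
  classical
  have h1 := Finset.card_filter_add_card_filter_not (s := (Finset.univ : Finset (ZMod p)))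
    (fun y => P.eval y = 0)
  rw [Finset.card_univ, ZMod.card] at h1
  have h2 : ((Finset.univ : Finset (ZMod p)).filter (fun y => P.eval y = 0)).card ≤
      P.natDegree := by
    refine le_trans (Finset.card_le_card ?_) ((Multiset.toFinset_card_le _).trans
      (Polynomial.card_roots' P))
    intro y hy
    rw [Multiset.mem_toFinset, Polynomial.mem_roots hP]
    exact (Finset.mem_filter.1 hy).2
  have h3 : ((Finset.univ : Finset (ZMod p)).filter (fun y => ¬ P.eval y = 0)).card =
      ((Finset.univ : Finset (ZMod p)).filter (fun y => P.eval y ≠ 0)).card := rfl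
  omega

/-- Main statement 5 of this file. -/
theorem ml_var0 {F : Type*} [Field F] (t : ℕ) (f : Polynomial F)
    (Q : MvPolynomial (Fin (t + 1)) F) (hQ : Q ≠ 0) (h : ∀ i : Fin t, i.succ ∉ Q.vars) :
    MvPolynomial.aeval (jet t f) Q ≠ 0 := by
  obtain ⟨q, rfl⟩ := MvPolynomial.exists_rename_eq_of_vars_subset_range Q
    (fun _ : Unit => (0 : Fin (t + 1))) (fun _ _ _ => rfl) (by
      intro i hi
      refine ⟨(), ?_⟩
      revert hi
      refine Fin.cases ?_ (fun i => ?_) i
      · exact fun _ => rfl
      · exact fun hi => absurd hi (h i))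
  rw [MvPolynomial.aeval_rename]
  have h1 : (jet t f ∘ fun _ : Unit => (0 : Fin (t + 1))) = fun _ => Polynomial.X := by
    funext _
    rfl
  rw [h1]
  intro h2
  apply hQ
  have h3 : MvPolynomial.uniqueAlgEquiv F Unit q = 0 := h2
  have h4 : q = 0 := (map_eq_zero_iff _ (MvPolynomial.uniqueAlgEquiv F Unit).injective).1 h3
  rw [h4, map_zero]

end Pool.Agent.Helper650_Lossy

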