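import Pool.Agent.Helper650_Lossy.Alg

/-!
# A solution of a differential equation is determined by its initial values
-/

namespace Pool.Agent.Helper650_Lossy

/-- First order expansion of a polynomial modulo an ideal. -/
theorem h314_taylor {R S σ : Type*} [CommRing R] [CommRing S] [Algebra R S] (a b : σ → S)
    (I : Ideal S) (j : σ) (h1 : ∀ i, i ≠ j → a i - b i ∈ I) (h2 : (a j - b j) ^ 2 ∈ I)
    (Q : MvPolynomial σ R) :
    MvPolynomial.aeval a Q - MvPolynomial.aeval b Q -
      (a j - b j) * MvPolynomial.aeval b (MvPolynomial.pderiv j Q) ∈ I := by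
  classical
  induction Q using MvPolynomial.induction_on with
  | C c => simp
  | add P P' hP hP' =>
    have h := I.add_mem hP hP'
    simp only [map_add]
    convert h using 1
    ring
  | mul_X P i hP =>
    have e : (MvPolynomial.pderiv j) (P * MvPolynomial.X i) =
        P * (if i = j then 1 else 0) + MvPolynomial.X i * MvPolynomial.pderiv j P := by
      rw [Derivation.leibniz, MvPolynomial.pderiv_X]
      simp [Pi.single_apply, smul_eq_mul, eq_comm]
    rw [e]
    simp only [map_add, map_mul, MvPolynomial.aeval_X]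
    by_cases hij : i = j
    · subst hij
      simp only [if_true, map_one, mul_one]
      have h3 := I.add_mem (I.mul_mem_left (a i) hP)
        (I.mul_mem_left (MvPolynomial.aeval b (MvPolynomial.pderiv i P)) h2)
      convert h3 using 1
      ring
    · simp only [if_neg hij, map_zero, mul_zero, zero_add]
      have h3 := I.add_mem (I.mul_mem_left (a i) hP)
        (I.mul_mem_left (MvPolynomial.aeval b P +
          (a j - b j) * MvPolynomial.aeval b (MvPolynomial.pderiv j P)) (h1 i hij))
      convert h3 using 1
      ring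

/-- The derivatives of a polynomial with a zero of multiplicity `r`. -/
theorem h314_deriv (p : ℕ) [Fact p.Prime] (h : Polynomial (ZMod p)) (y : ZMod p) (r : ℕ)
    (u : Polynomial (ZMod p)) (hr : r < p) (hu : u.eval y ≠ 0)
    (hh : h = (Polynomial.X - Polynomial.C y) ^ r * u) (i : ℕ) (hi : i ≤ r) :
    ∃ w : Polynomial (ZMod p), (Polynomial.derivative^[i]) h =
      (Polynomial.X - Polynomial.C y) ^ (r - i) * w ∧ w.eval y ≠ 0 := by
  induction i with
  | zero => exact ⟨u, by simpa using hh, hu⟩
  | succ i ih =>
    obtain ⟨w, h1, h2⟩ := ih (by omega)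
    obtain ⟨k, hk⟩ : ∃ k, r - i = k + 1 := ⟨r - i - 1, by omega⟩
    refine ⟨Polynomial.C ((k + 1 : ℕ) : ZMod p) * w +
      (Polynomial.X - Polynomial.C y) * Polynomial.derivative w, ?_, ?_⟩
    · rw [Function.iterate_succ_apply', h1, hk, show r - (i + 1) = k by omega,
        Polynomial.derivative_mul, Polynomial.derivative_X_sub_C_pow]
      simp only [Nat.add_sub_cancel, map_natCast]
      ring
    · have h3 : ((k + 1 : ℕ) : ZMod p) ≠ 0 := by
        intro h0
        rw [ZMod.natCast_eq_zero_iff] at h0
        exact absurd (Nat.le_of_dvd (Nat.succ_pos k) h0) (by omega)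
      simpa using ⟨by exact_mod_cast h3, h2⟩

/-- Main statement 1 of this file. -/
theorem ml_unique (p : ℕ) [Fact p.Prime] (t : ℕ) (f g : Polynomial (ZMod p))
    (hf : f.natDegree < p) (hg : g.natDegree < p) (y : ZMod p)
    (Q : MvPolynomial (Fin (t + 1)) (ZMod p)) (j : Fin t)
    (hQj : ∀ i : Fin (t + 1), j.succ < i → Q.degreeOf i = 0)
    (hQf : MvPolynomial.aeval (jet t f) Q = 0) (hQg : MvPolynomial.aeval (jet t g) Q = 0)
    (hfg : jetAt t f y = jetAt t g y)
    (hS : MvPolynomial.eval (jetAt t f y) (MvPolynomial.pderiv j.succ Q) ≠ 0) : f = g := by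
  classical
  by_contra hne
  have hh0 : f - g ≠ 0 := sub_ne_zero.2 hne
  have hdeg : (f - g).natDegree < p := (Polynomial.natDegree_sub_le f g).trans_lt (max_lt hf hg)
  set r := (f - g).rootMultiplicity y with hr
  have hrp : r < p := by
    have h1 := Polynomial.natDegree_le_of_dvd (Polynomial.pow_rootMultiplicity_dvd (f - g) y) hh0
    rw [Polynomial.natDegree_pow, Polynomial.natDegree_X_sub_C, mul_one] at h1
    omega
  -- the derivatives vanish
  have hroot : ∀ i < t, ((Polynomial.derivative^[i]) (f - g)).IsRoot y := by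
    intro i hi
    have h1 := congrFun hfg (Fin.succ ⟨i, hi⟩)
    simp only [jetAt, Fin.cons_succ] at h1
    rw [Polynomial.IsRoot.def, Polynomial.iterate_derivative_sub, Polynomial.eval_sub, h1, sub_self]
  have hfac : ∀ n < p, ((n.factorial : ℕ) : ZMod p) ∈ nonZeroDivisors (ZMod p) := by
    intro n hn
    rw [mem_nonZeroDivisors_iff_ne_zero]
    intro h0
    rw [ZMod.natCast_eq_zero_iff, Nat.Prime.dvd_factorial (Fact.out : p.Prime)] at h0
    omega
  have hjr : j.val < r := by
    by_cases hjp : j.val < p
    · exact Polynomial.lt_rootMultiplicity_of_isRoot_iterate_derivative_of_mem_nonZeroDivisors hh0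
        (fun m hm => hroot m (by have := j.2; omega)) (hfac _ hjp)
    · exfalso
      have hp := (Fact.out : p.Prime).pos
      have := Polynomial.lt_rootMultiplicity_of_isRoot_iterate_derivative_of_mem_nonZeroDivisors
        (n := p - 1) hh0 (fun m hm => hroot m (by have := j.2; omega)) (hfac _ (by omega))
      omega
  obtain ⟨u, hu, hu2⟩ := Polynomial.exists_eq_pow_rootMultiplicity_mul_and_not_dvd (f - g) hh0 y
  have huy : u.eval y ≠ 0 := fun h => hu2 (Polynomial.dvd_iff_isRoot.2 h)
  have hder := h314_deriv p (f - g) y r u hrp huy hu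
  obtain ⟨w, hw, hwy⟩ := hder j.val hjr.le
  set e := r - j.val with he
  have he1 : 1 ≤ e := by omega
  set I : Ideal (Polynomial (ZMod p)) :=
    Ideal.span {(Polynomial.X - Polynomial.C y) ^ (e + 1)} with hI
  set a' : Fin (t + 1) → Polynomial (ZMod p) := fun i => if j.succ < i then jet t g i else jet t f i
    with ha'
  have haQ : MvPolynomial.aeval a' Q = 0 := by
    rw [← hQf]
    refine MvPolynomial.eval₂Hom_congr' rfl (fun i hi _ => ?_) rfl
    have h1 : ¬ j.succ < i := by
      intro h
      have h2 := hQj i h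
      obtain ⟨c, hc, hic⟩ := (MvPolynomial.mem_vars_iff_mem_support i).1 hi
      have h3 := MvPolynomial.monomial_le_degreeOf i hc
      exact Finsupp.mem_support_iff.1 hic (by omega)
    simp only [ha', if_neg h1]
  have hsub : ∀ i : Fin t, jet t f i.succ - jet t g i.succ =
      (Polynomial.derivative^[i.val]) (f - g) := by
    intro i
    simp only [jet, Fin.cons_succ]
    rw [Polynomial.iterate_derivative_sub]
  have hj' : a' j.succ - jet t g j.succ = (Polynomial.X - Polynomial.C y) ^ e * w := by
    simp only [ha', lt_irrefl, if_false]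
    rw [hsub, hw]
  have hT := h314_taylor (R := ZMod p) a' (jet t g) I j.succ (by
    intro i hi
    by_cases h1 : j.succ < i
    · simp only [ha', if_pos h1, sub_self]
      exact I.zero_mem
    · simp only [ha', if_neg h1]
      refine Fin.cases ?_ (fun i => ?_) i (motive := fun i => i ≠ j.succ → ¬ j.succ < i →
        jet t f i - jet t g i ∈ I) hi h1
      · intro _ _
        simp only [jet, Fin.cons_zero, sub_self]
        exact I.zero_mem
      · intro h2 h3
        have h4 : i.val < j.val := by
          have h5 : ¬ j < i := fun h => h3 (Fin.succ_lt_succ_iff.2 h)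
          have h6 : i ≠ j := fun h => h2 (by rw [h])
          have := lt_of_le_of_ne (not_lt.1 h5) h6
          exact this
        obtain ⟨w', hw', -⟩ := hder i.val (by omega)
        rw [hsub, hw', hI, Ideal.mem_span_singleton]
        exact Dvd.dvd.mul_right (pow_dvd_pow _ (by omega)) _) (by
    rw [hj', hI, Ideal.mem_span_singleton, mul_pow, ← pow_mul]
    exact Dvd.dvd.mul_right (pow_dvd_pow _ (by omega)) _) Q
  rw [haQ, hQg, hj', sub_zero, zero_sub, neg_mem_iff, hI, Ideal.mem_span_singleton, pow_succ,
    mul_assoc] at hT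
  have hX : (Polynomial.X - Polynomial.C y : Polynomial (ZMod p)) ^ e ≠ 0 :=
    pow_ne_zero _ (Polynomial.X_sub_C_ne_zero y)
  have h5 := (mul_dvd_mul_iff_left hX).1 hT
  rw [Polynomial.dvd_iff_isRoot, Polynomial.IsRoot.def, Polynomial.eval_mul, mul_eq_zero] at h5
  rcases h5 with h5 | h5
  · exact hwy h5
  · apply hS
    rw [hfg, ← h5]
    have h6 := MvPolynomial.eval₂_comp_left (Polynomial.evalRingHom y)
      (algebraMap (ZMod p) (Polynomial (ZMod p))) (jet t g) (MvPolynomial.pderiv j.succ Q)
    rw [MvPolynomial.aeval_def, ← Polynomial.coe_evalRingHom, h6, MvPolynomial.eval]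
    have h7 : (Polynomial.evalRingHom y).comp (algebraMap (ZMod p) (Polynomial (ZMod p))) =
        RingHom.id (ZMod p) := RingHom.ext_zmod _ _
    have h8 : (Polynomial.evalRingHom y) ∘ jet t g = jetAt t g y := by
      funext i
      refine Fin.cases ?_ (fun i => ?_) i
      · simp [jet, jetAt]
      · simp [jet, jetAt]
    rw [h7, h8]
    rfl

end Pool.Agent.Helper650_Lossy

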