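import Pool.Agent.Helper650_Lossy.Interp
import Pool.Agent.Helper650_Lossy.Unique
import Pool.Agent.Helper650_Lossy.Facts

/-!
# Expansion

Strong induction on `A.card`.  For `A = ∅` clear.  Let `A` be nonempty and let `Γ` be the image on
the right side, `|Γ| ≤ p |A| < D^(t + 1)` (`jetAt t f y` for `f ∈ A`, `y` in `ZMod p`).  By `ml_interp`
(`m = t + 1`) there is `Q ≠ 0` with total degree at most `(t + 1) D` vanishing on `Γ`; choose such a `Q` with
minimal total degree.  For `f ∈ A` the polynomial `aeval (jet t f) Q` has degree at most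
`R * ((t + 1) * D) < p` (`ml_deg`) and vanishes everywhere (`ml_eval`), so it is `0` (`ml_roots`).  By
`ml_var0` some `i.succ` is in `Q.vars`; so `ml_top` gives `j`; let `S = pderiv j.succ Q`.  By minimality `S`
does not vanish on all of `Γ`.  Let `A₁` be the set of the `f ∈ A` with `aeval (jet t f) S ≠ 0` and
`A₀ = A \ A₁`.  `A₁` is nonempty (if `S` does not vanish at `jetAt t f y` then `aeval (jet t f) S ≠ 0`), so the
induction hypothesis holds for `A₀`.  On the image `Γ₀` for `A₀` `S` vanishes.  Consider the pairs `(f, y)`,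
`f ∈ A₁`, with `eval (jetAt t f y) S ≠ 0`: for each `f ∈ A₁` there are at least
`p - R * ((t + 1) * D)` of them by `ml_roots` and `ml_deg`.  The map `(f, y) ↦ jetAt t f y` is injective on
these pairs: the component `0` gives `y`, and then `ml_unique` gives `f`.  Its values are in `Γ \ Γ₀`.  So
`|Γ| ≥ |Γ₀| + (p - ...) |A₁| ≥ (p - ...) (|A₀| + |A₁|)`.  Note `R < p`: `D ≥ 1` since `D ^ (t + 1) > 0`.
-/

namespace Pool.Agent.Helper650_Lossy

open Classical in
/-- Main statement 1 of this file. -/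
theorem ml_expand (p : ℕ) [Fact p.Prime] (R t D : ℕ) (hR : 1 ≤ R)
    (hlt : R * ((t + 1) * D) < p) (A : Finset (Polynomial (ZMod p)))
    (hA : ∀ f ∈ A, f.natDegree < R) (hD : p * A.card < D ^ (t + 1)) :
    (p - R * ((t + 1) * D)) * A.card ≤
      ((A ×ˢ (Finset.univ : Finset (ZMod p))).image (fun q => jetAt t q.1 q.2)).card := by
  revert hA hD
  induction A using Finset.strongInduction with
  | H A ih =>
  intro hA hD
  set K := R * ((t + 1) * D) with hK
  rcases A.eq_empty_or_nonempty with rfl | hne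
  · simp
  set Γ := (A ×ˢ (Finset.univ : Finset (ZMod p))).image (fun q => jetAt t q.1 q.2) with hΓ
  have hΓc : Γ.card < D ^ (t + 1) := by
    refine lt_of_le_of_lt (Finset.card_image_le.trans ?_) hD
    rw [Finset.card_product, Finset.card_univ, ZMod.card, mul_comm]
  have hmem : ∀ f ∈ A, ∀ y, jetAt t f y ∈ Γ := by
    intro f hf y
    exact Finset.mem_image.mpr ⟨(f, y), Finset.mem_product.mpr ⟨hf, Finset.mem_univ _⟩, rfl⟩
  -- a nonzero polynomial of minimal total degree vanishing on `Γ`
  have hex : ∃ n, ∃ Q : MvPolynomial (Fin (t + 1)) (ZMod p), Q ≠ 0 ∧ Q.totalDegree = n ∧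
      ∀ x ∈ Γ, MvPolynomial.eval x Q = 0 := by
    obtain ⟨Q, h1, -, h3⟩ := ml_interp (t + 1) D Γ hΓc
    exact ⟨_, Q, h1, rfl, h3⟩
  obtain ⟨Q, hQ0, hQn, hQΓ⟩ := Nat.find_spec hex
  have hmin : ∀ Q' : MvPolynomial (Fin (t + 1)) (ZMod p), Q' ≠ 0 →
      (∀ x ∈ Γ, MvPolynomial.eval x Q' = 0) → Q.totalDegree ≤ Q'.totalDegree := by
    intro Q' h1 h2
    rw [hQn]
    exact Nat.find_min' hex ⟨Q', h1, rfl, h2⟩
  have hQd : Q.totalDegree ≤ (t + 1) * D := by
    obtain ⟨Q', h1, h2, h3⟩ := ml_interp (t + 1) D Γ hΓc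
    exact (hmin Q' h1 h3).trans h2
  have hQf : ∀ f ∈ A, MvPolynomial.aeval (jet t f) Q = 0 := by
    intro f hf
    by_contra hP
    have h1 := ml_roots p _ hP
    have h2 := ml_deg R t hR f (hA f hf) Q
    have h3 : ((Finset.univ : Finset (ZMod p)).filter
        (fun y => (MvPolynomial.aeval (jet t f) Q).eval y ≠ 0)).card = 0 := by
      rw [Finset.card_eq_zero, Finset.filter_eq_empty_iff]
      intro y _ h
      exact h (by rw [ml_eval]; exact hQΓ _ (hmem f hf y))
    rw [h3, add_zero] at h1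
    have h4 : R * Q.totalDegree ≤ K := Nat.mul_le_mul_left R hQd
    omega
  have hQp : Q.totalDegree < p := by
    have : Q.totalDegree ≤ R * ((t + 1) * D) :=
      hQd.trans (Nat.le_mul_of_pos_left _ hR)
    omega
  obtain ⟨f0, hf0⟩ := hne
  obtain ⟨j, hQj, hS0, hSd⟩ : ∃ j : Fin t, (∀ i : Fin (t + 1), j.succ < i → Q.degreeOf i = 0) ∧
        MvPolynomial.pderiv j.succ Q ≠ 0 ∧
        (MvPolynomial.pderiv j.succ Q).totalDegree < Q.totalDegree := by
    rcases ml_top p t Q hQp with h | h
    · exact absurd (hQf f0 hf0) (ml_var0 t f0 Q hQ0 h)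
    · exact h
  set S := MvPolynomial.pderiv j.succ Q with hS
  obtain ⟨x0, hx0, hSx⟩ : ∃ x ∈ Γ, MvPolynomial.eval x S ≠ 0 := by
    by_contra hcon
    push Not at hcon
    have := hmin S hS0 hcon
    omega
  set A1 := A.filter (fun f => MvPolynomial.aeval (jet t f) S ≠ 0) with hA1
  set A0 := A.filter (fun f => ¬ MvPolynomial.aeval (jet t f) S ≠ 0) with hA0
  have hcard : A1.card + A0.card = A.card := Finset.card_filter_add_card_filter_not _
  have hss : A0 ⊂ A := by
    refine Finset.filter_ssubset.mpr ?_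
    obtain ⟨⟨f, y⟩, hfy, rfl⟩ := Finset.mem_image.mp hx0
    refine ⟨f, (Finset.mem_product.mp hfy).1, ?_⟩
    rw [not_not]
    intro h
    apply hSx
    show MvPolynomial.eval (jetAt t f y) S = 0
    rw [← ml_eval, h, Polynomial.eval_zero]
  have hD0 : p * A0.card < D ^ (t + 1) :=
    lt_of_le_of_lt (Nat.mul_le_mul_left p (Finset.card_le_card hss.1)) hD
  have hih := ih A0 hss (fun f hf => hA f (hss.1 hf)) hD0
  set Γ0 := (A0 ×ˢ (Finset.univ : Finset (ZMod p))).image (fun q => jetAt t q.1 q.2) with hΓ0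
  -- the pairs
  set T := (A1 ×ˢ (Finset.univ : Finset (ZMod p))).filter
    (fun q => MvPolynomial.eval (jetAt t q.1 q.2) S ≠ 0) with hT
  have hTc : (p - K) * A1.card ≤ T.card := by
    have e : T.card = ∑ f ∈ A1, ∑ y : ZMod p,
        (if MvPolynomial.eval (jetAt t (f, y).1 (f, y).2) S ≠ 0 then 1 else 0) := by
      rw [hT, Finset.card_filter, Finset.sum_product]
    rw [e]
    have h : ∀ f ∈ A1, p - K ≤ ∑ y : ZMod p,
        (if MvPolynomial.eval (jetAt t (f, y).1 (f, y).2) S ≠ 0 then 1 else 0) := by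
      intro f hf
      have hfA : f ∈ A := (Finset.mem_filter.mp hf).1
      have hP := (Finset.mem_filter.mp hf).2
      have h1 := ml_roots p _ hP
      have h2 := ml_deg R t hR f (hA f hfA) S
      have h3 : R * S.totalDegree ≤ K := Nat.mul_le_mul_left R (hSd.le.trans hQd)
      have h4 : ((Finset.univ : Finset (ZMod p)).filter
          (fun y => (MvPolynomial.aeval (jet t f) S).eval y ≠ 0)).card =
          ∑ y : ZMod p, (if MvPolynomial.eval (jetAt t (f, y).1 (f, y).2) S ≠ 0 then 1 else 0) := by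
        rw [Finset.card_filter]
        refine Finset.sum_congr rfl fun y _ => ?_
        rw [ml_eval]
      rw [← h4]
      omega
    have := Finset.card_nsmul_le_sum A1 _ _ h
    rw [smul_eq_mul, mul_comm] at this
    exact this
  have hDpos : 1 ≤ D := by
    rcases Nat.eq_zero_or_pos D with h | h
    · rw [h, zero_pow (by omega)] at hD
      omega
    · exact h
  have hRp : R ≤ p := by
    have h1 : 1 ≤ (t + 1) * D := Nat.mul_pos (by omega) hDpos
    have h2 : R * 1 ≤ K := Nat.mul_le_mul_left R h1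
    omega
  have hinj : Set.InjOn (fun q : Polynomial (ZMod p) × ZMod p => jetAt t q.1 q.2) (T : Set _) := by
    rintro ⟨f, y⟩ hf ⟨g, z⟩ hg heq
    have hf' := Finset.mem_filter.mp (Finset.mem_coe.mp hf)
    have hg' := Finset.mem_filter.mp (Finset.mem_coe.mp hg)
    have heq' : jetAt t f y = jetAt t g z := heq
    have hyz : y = z := by
      have := congrFun heq' 0
      simpa [jetAt] using this
    subst hyz
    have hfA : f ∈ A := (Finset.mem_filter.mp (Finset.mem_product.mp hf'.1).1).1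
    have hgA : g ∈ A := (Finset.mem_filter.mp (Finset.mem_product.mp hg'.1).1).1
    have := ml_unique p t f g ((hA f hfA).trans_le hRp) ((hA g hgA).trans_le hRp) y Q j hQj
      (hQf f hfA) (hQf g hgA) heq' hf'.2
    rw [this]
  set Γ1 := T.image (fun q => jetAt t q.1 q.2) with hΓ1
  have hΓ1c : Γ1.card = T.card := Finset.card_image_of_injOn hinj
  have hdis : Disjoint Γ0 Γ1 := by
    rw [Finset.disjoint_left]
    intro x hx hx'
    obtain ⟨⟨f, y⟩, hfy, rfl⟩ := Finset.mem_image.mp hx
    obtain ⟨⟨g, z⟩, hgz, heq⟩ := Finset.mem_image.mp hx'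
    have h1 := (Finset.mem_filter.mp hgz).2
    have h2 : MvPolynomial.aeval (jet t f) S = 0 :=
      not_not.mp (Finset.mem_filter.mp (Finset.mem_product.mp hfy).1).2
    apply h1
    have h3 : jetAt t g z = jetAt t f y := heq
    show MvPolynomial.eval (jetAt t g z) S = 0
    rw [h3, ← ml_eval, h2, Polynomial.eval_zero]
  have hsub : Γ0 ∪ Γ1 ⊆ Γ := by
    intro x hx
    rcases Finset.mem_union.mp hx with hx | hx
    · obtain ⟨⟨f, y⟩, hfy, rfl⟩ := Finset.mem_image.mp hx
      exact hmem f (hss.1 (Finset.mem_product.mp hfy).1) y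
    · obtain ⟨⟨f, y⟩, hfy, rfl⟩ := Finset.mem_image.mp hx
      exact hmem f (Finset.mem_filter.mp
        (Finset.mem_product.mp (Finset.mem_filter.mp hfy).1).1).1 y
  have hfin := Finset.card_le_card hsub
  rw [Finset.card_union_of_disjoint hdis, hΓ1c] at hfin
  calc (p - K) * A.card = (p - K) * A0.card + (p - K) * A1.card := by
        rw [← hcard]; ring
    _ ≤ Γ0.card + T.card := Nat.add_le_add hih hTc
    _ ≤ Γ.card := hfin

end Pool.Agent.Helper650_Lossy

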