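import Mathlib

/-!
# Interpolation

Consider the polynomials with exponents less than `D` in each variable: `D^m` coefficients.
The evaluation at the points of `X` is a linear map to `X → F`, of smaller dimension, so it has a nonzero
kernel (for example `LinearMap.exists_ne_zero_of_finrank_lt` or a similar statement about
`(Fin m → Fin D) → F`; note that `X.card < D ^ m` gives the inequality of the dimensions).  The total degree
of such a polynomial is at most `m * D`.
-/

namespace Pool.Agent.Helper650_Lossy

/-- Main statement 1 of this file. -/
theorem ml_interp {F : Type*} [Field F] (m D : ℕ) (X : Finset (Fin m → F))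
    (hX : X.card < D ^ m) :
    ∃ Q : MvPolynomial (Fin m) F, Q ≠ 0 ∧ Q.totalDegree ≤ m * D ∧
      ∀ x ∈ X, MvPolynomial.eval x Q = 0 := by
  classical
  let ex : (Fin m → Fin D) → (Fin m →₀ ℕ) := fun e => Finsupp.equivFunOnFinite.symm (fun i => (e i : ℕ))
  have hex : Function.Injective ex := by
    intro e e' h
    have h1 := Finsupp.equivFunOnFinite.symm.injective h
    funext i
    exact Fin.ext (congrFun h1 i)
  let poly : ((Fin m → Fin D) → F) →ₗ[F] MvPolynomial (Fin m) F :=
    { toFun := fun c => ∑ e, MvPolynomial.monomial (ex e) (c e)
      map_add' := fun c c' => by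
        simp only [Pi.add_apply, map_add, Finset.sum_add_distrib]
      map_smul' := fun a c => by
        simp only [Pi.smul_apply, map_smul, Finset.smul_sum, RingHom.id_apply] }
  let ev : ((Fin m → Fin D) → F) →ₗ[F] (X → F) :=
    { toFun := fun c x => MvPolynomial.eval (x : Fin m → F) (poly c)
      map_add' := fun c c' => by
        funext x
        simp only [map_add, Pi.add_apply]
      map_smul' := fun a c => by
        funext x
        simp only [map_smul, Pi.smul_apply, MvPolynomial.smul_eval, RingHom.id_apply, smul_eq_mul] }
  have hlt : Module.finrank F (X → F) < Module.finrank F ((Fin m → Fin D) → F) := by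
    rw [Module.finrank_fintype_fun_eq_card, Module.finrank_fintype_fun_eq_card, Fintype.card_coe,
      Fintype.card_fun, Fintype.card_fin, Fintype.card_fin]
    exact hX
  have hker := LinearMap.ker_ne_bot_of_finrank_lt (f := ev) hlt
  obtain ⟨c, hc, hc0⟩ := (Submodule.ne_bot_iff _).1 hker
  refine ⟨poly c, ?_, ?_, ?_⟩
  · intro h0
    apply hc0
    funext e
    have h1 : (poly c).coeff (ex e) = c e := by
      change (∑ e', MvPolynomial.monomial (ex e') (c e')).coeff (ex e) = c e
      rw [MvPolynomial.coeff_sum, Finset.sum_eq_single e]
      · rw [MvPolynomial.coeff_monomial, if_pos rfl]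
      · intro e' _ hne
        rw [MvPolynomial.coeff_monomial, if_neg]
        exact fun h => hne (hex h)
      · intro h
        exact absurd (Finset.mem_univ e) h
    rw [← h1, h0, MvPolynomial.coeff_zero]
    rfl
  · change (∑ e, MvPolynomial.monomial (ex e) (c e)).totalDegree ≤ m * D
    refine MvPolynomial.totalDegree_finsetSum_le ?_
    intro e _
    refine (MvPolynomial.totalDegree_monomial_le _ _).trans ?_
    have h2 : (ex e).sum (fun _ n => n) = ∑ i, ((e i : ℕ)) := by
      rw [Finsupp.sum_fintype]
      · rfl
      · intro i; rfl
    calc (ex e).sum (fun _ n => n) = ∑ i, ((e i : ℕ)) := h2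
      _ ≤ ∑ _i : Fin m, D := Finset.sum_le_sum (fun i _ => (e i).isLt.le)
      _ = m * D := by
        rw [Finset.sum_const, Finset.card_univ, Fintype.card_fin, smul_eq_mul]
  · intro x hx
    have h3 := congrFun (LinearMap.mem_ker.1 hc) ⟨x, hx⟩
    exact h3

end Pool.Agent.Helper650_Lossy

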