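import Pool.Agent.Helper650_Lossy.Expand
import Pool.Agent.Helper650_Lossy.Defs

/-!
# Expansion, with natural numbers

Part 1: for `v < p ^ R` let `f_v` be the polynomial over `ZMod p` with the coefficients
`v / p ^ j % p`, `j < R`; `natDegree f_v < R`, and `v ↦ f_v` is injective on `v < p ^ R`.
`(dv p R v y i : ZMod p)` is the value of `derivative^[i] f_v` at `y`
(`Polynomial.iterate_derivative_X_pow_eq_natCast_mul`).  From `pos p R v y t` (with `y < p`) one can read off
`y` and all `dv p R v y i`, `i < t` (digits in base `p`, `dv < p`), so `jetAt t f_v y` is a function of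
`pos p R v y t`.  Hence the set on the right side has at least as many elements as the image in `ml_expand` for
`A = {f_v}`, and `ml_expand` gives the claim.
Part 2: let `L` be the filtered set.  If `|L| ≥ 2 k + 1` choose a subset `A` with exactly `2 k + 1` elements;
all its positions are in `X`, so by Part 1 `(p - R ((t+1) D)) (2 k + 1) ≤ |X| ≤ p k`, but
`2 (p - R ((t+1) D)) > p`, so `p (2 k + 1) < 2 p k + ...`, a contradiction.  So `|L| ≤ 2 k`, and Part 1 for `L`
gives the second claim.  Part 3: induction on `t`, `dv < p`.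
-/

namespace Pool.Agent.Helper650_Lossy

/-- the polynomial whose coefficients are the first `R` digits of `v` in base `p` -/
noncomputable def h809_f (p R v : ℕ) : Polynomial (ZMod p) :=
  ∑ j ∈ Finset.range R, Polynomial.C ((v / p ^ j % p : ℕ) : ZMod p) * Polynomial.X ^ j

theorem h809_deg (p R v : ℕ) (hR : 1 ≤ R) : (h809_f p R v).natDegree < R := by
  have h : (h809_f p R v).natDegree ≤ R - 1 := by
    refine Polynomial.natDegree_sum_le_of_forall_le _ _ (fun j hj => ?_)
    rw [Finset.mem_range] at hj
    exact (Polynomial.natDegree_C_mul_X_pow_le _ _).trans (by omega)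
  omega

theorem h809_coeff (p R v j : ℕ) (hj : j < R) :
    (h809_f p R v).coeff j = ((v / p ^ j % p : ℕ) : ZMod p) := by
  unfold h809_f
  rw [Polynomial.finsetSum_coeff, Finset.sum_eq_single j]
  · rw [Polynomial.coeff_C_mul_X_pow, if_pos rfl]
  · intro b _ hb
    rw [Polynomial.coeff_C_mul_X_pow, if_neg (Ne.symm hb)]
  · intro h
    exact absurd (Finset.mem_range.mpr hj) h

theorem h809_dig (p : ℕ) (hp : 0 < p) : ∀ (R v w : ℕ), v < p ^ R → w < p ^ R →
    (∀ j < R, v / p ^ j % p = w / p ^ j % p) → v = w := by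
  intro R
  induction R with
  | zero =>
    intro v w hv hw _
    simp at hv hw
    omega
  | succ R ih =>
    intro v w hv hw h
    have h0 : v % p = w % p := by simpa using h 0 (Nat.succ_pos R)
    have h1 : v / p = w / p := by
      apply ih
      · rw [Nat.div_lt_iff_lt_mul hp, ← pow_succ]
        exact hv
      · rw [Nat.div_lt_iff_lt_mul hp, ← pow_succ]
        exact hw
      · intro j hj
        rw [Nat.div_div_eq_div_mul, Nat.div_div_eq_div_mul, ← pow_succ']
        exact h (j + 1) (by omega)
    rw [← Nat.div_add_mod v p, ← Nat.div_add_mod w p, h0, h1]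

theorem h809_inj (p R v w : ℕ) (hp : 0 < p) (hv : v < p ^ R) (hw : w < p ^ R)
    (h : h809_f p R v = h809_f p R w) : v = w := by
  refine h809_dig p hp R v w hv hw (fun j hj => ?_)
  have h1 := congrArg (fun f => f.coeff j) h
  simp only [h809_coeff p R _ j hj] at h1
  rw [ZMod.natCast_eq_natCast_iff', Nat.mod_mod, Nat.mod_mod] at h1
  exact h1

theorem h809_dsum (p v y i : ℕ) : ∀ R : ℕ, dsum p v y i R =
    ∑ j ∈ Finset.range R, v / p ^ j % p * (j.descFactorial i * y ^ (j - i)) := by
  intro R
  induction R with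
  | zero => rfl
  | succ R ih => rw [Finset.sum_range_succ, ← ih]; rfl

theorem h809_eval (p R v y i : ℕ) :
    ((Polynomial.derivative^[i]) (h809_f p R v)).eval (y : ZMod p) = ((dv p R v y i : ℕ) : ZMod p) := by
  unfold dv h809_f
  rw [ZMod.natCast_mod, h809_dsum, Polynomial.iterate_derivative_sum, Polynomial.eval_finsetSum,
    Nat.cast_sum]
  refine Finset.sum_congr rfl (fun j _ => ?_)
  rw [Polynomial.iterate_derivative_C_mul, Polynomial.iterate_derivative_X_pow_eq_natCast_mul]
  simp only [Polynomial.eval_mul, Polynomial.eval_C, Polynomial.eval_natCast,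
    Polynomial.eval_pow, Polynomial.eval_X, Nat.cast_mul, Nat.cast_pow]

theorem h809_pos (p R v y : ℕ) (hy : y < p) : ∀ t i : ℕ, i ≤ t →
    pos p R v y t / p ^ (t - i) % p = (if i = 0 then y else dv p R v y (i - 1)) := by
  have hp : 0 < p := by omega
  intro t
  induction t with
  | zero =>
    intro i hi
    have hi0 : i = 0 := by omega
    subst hi0
    simp only [pos, Nat.sub_zero, pow_zero, Nat.div_one, if_pos]
    exact Nat.mod_eq_of_lt hy
  | succ t ih =>
    intro i hi
    have hdv : dv p R v y t < p := Nat.mod_lt _ hp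
    rcases Nat.lt_or_ge t i with h | h
    · have hi1 : i = t + 1 := by omega
      subst hi1
      simp only [pos, Nat.sub_self, pow_zero, Nat.div_one, Nat.add_eq_zero_iff, one_ne_zero,
        and_false, if_false, Nat.add_sub_cancel]
      rw [Nat.add_comm, Nat.add_mul_mod_self_right, Nat.mod_eq_of_lt hdv]
    · have h1 : t + 1 - i = (t - i) + 1 := by omega
      rw [h1, pow_succ', ← Nat.div_div_eq_div_mul]
      have h2 : pos p R v y (t + 1) / p = pos p R v y t := by
        show (pos p R v y t * p + dv p R v y t) / p = _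
        rw [Nat.mul_comm, Nat.mul_add_div hp, Nat.div_eq_of_lt hdv, Nat.add_zero]
      rw [h2]
      exact ih i h

/-- reading off the jet from the position -/
noncomputable def h809_G (p t : ℕ) (n : ℕ) : Fin (t + 1) → ZMod p :=
  fun i => ((n / p ^ (t - i.val) % p : ℕ) : ZMod p)

theorem h809_jet (p : ℕ) [Fact p.Prime] (R v y t : ℕ) (hy : y < p) :
    h809_G p t (pos p R v y t) = jetAt t (h809_f p R v) (y : ZMod p) := by
  funext i
  unfold h809_G jetAt
  rw [h809_pos p R v y hy t i.val (by omega)]
  refine Fin.cases ?_ (fun j => ?_) i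
  · simp
  · simp [h809_eval]

/-- Main statement 1 of this file. -/
theorem ml_nat (p R t D : ℕ) (hp : p.Prime) (hR : 1 ≤ R) (hlt : R * ((t + 1) * D) < p)
    (A : Finset ℕ) (hA : ∀ v ∈ A, v < p ^ R) (hD : p * A.card < D ^ (t + 1)) :
    (p - R * ((t + 1) * D)) * A.card ≤
      (A.biUnion (fun v => (Finset.range p).image (fun y => pos p R v y t))).card := by
  classical
  have : Fact p.Prime := ⟨hp⟩
  have hp0 : 0 < p := hp.pos
  have hcard : (A.image (h809_f p R)).card = A.card :=
    Finset.card_image_of_injOn (fun v hv w hw h => h809_inj p R v w hp0 (hA v hv) (hA w hw) h)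
  have h1 := ml_expand p R t D hR hlt (A.image (h809_f p R)) (by
    intro f hf
    obtain ⟨v, _, rfl⟩ := Finset.mem_image.mp hf
    exact h809_deg p R v hR) (by rw [hcard]; exact hD)
  rw [hcard] at h1
  refine h1.trans ?_
  refine le_trans (Finset.card_le_card (t := (A.biUnion (fun v => (Finset.range p).image
    (fun y => pos p R v y t))).image (h809_G p t)) ?_) Finset.card_image_le
  intro z hz
  rw [Finset.mem_image] at hz
  obtain ⟨⟨f, y⟩, hq, rfl⟩ := hz
  obtain ⟨v, hv, rfl⟩ := Finset.mem_image.mp (Finset.mem_product.mp hq).1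
  have hy : y.val < p := ZMod.val_lt y
  refine Finset.mem_image.mpr ⟨pos p R v y.val t, ?_, ?_⟩
  · exact Finset.mem_biUnion.mpr ⟨v, hv, Finset.mem_image.mpr
      ⟨y.val, Finset.mem_range.mpr hy, rfl⟩⟩
  · rw [h809_jet p R v y.val t hy, ZMod.natCast_zmod_val]

/-- Main statement 2 of this file. -/
theorem ml_list (p R t D k n : ℕ) (hp : p.Prime) (hR : 1 ≤ R)
    (hlt : 2 * (R * ((t + 1) * D)) < p) (hD : p * (2 * k + 1) < D ^ (t + 1)) (hn : n ≤ p ^ R)
    (X : Finset ℕ) (hX : X.card ≤ p * k) :
    ((Finset.range n).filter (fun v => ∀ y < p, pos p R v y t ∈ X)).card ≤ 2 * k ∧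
      (p - R * ((t + 1) * D)) *
        ((Finset.range n).filter (fun v => ∀ y < p, pos p R v y t ∈ X)).card ≤ X.card := by
  have hp0 : 0 < p := hp.pos
  set L := (Finset.range n).filter (fun v => ∀ y < p, pos p R v y t ∈ X) with hL
  set s := R * ((t + 1) * D) with hs
  have key : ∀ A : Finset ℕ, A ⊆ L → A.card ≤ 2 * k + 1 → (p - s) * A.card ≤ X.card := by
    intro A hAL hAc
    have hmem : ∀ v ∈ A, v < n ∧ ∀ y < p, pos p R v y t ∈ X := by
      intro v hv
      have h1 := hAL hv
      rw [hL, Finset.mem_filter, Finset.mem_range] at h1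
      exact h1
    have h2 := ml_nat p R t D hp hR (by omega) A (fun v hv => (hmem v hv).1.trans_le hn)
      (lt_of_le_of_lt (Nat.mul_le_mul_left p hAc) hD)
    refine h2.trans (Finset.card_le_card ?_)
    intro z hz
    obtain ⟨v, hv, hz2⟩ := Finset.mem_biUnion.mp hz
    obtain ⟨y, hy, rfl⟩ := Finset.mem_image.mp hz2
    exact (hmem v hv).2 y (Finset.mem_range.mp hy)
  have hLk : L.card ≤ 2 * k := by
    by_contra hcon
    obtain ⟨A, hAL, hAc⟩ := Finset.exists_subset_card_eq (s := L) (n := 2 * k + 1) (by omega)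
    have h1 := key A hAL hAc.le
    rw [hAc] at h1
    have h2 : (p - s) * (2 * k + 1) ≤ p * k := h1.trans hX
    have h3 : p + 1 ≤ 2 * (p - s) := by omega
    have h4 : (p + 1) * (2 * k + 1) ≤ 2 * (p - s) * (2 * k + 1) := Nat.mul_le_mul_right _ h3
    have h5 : 2 * (p - s) * (2 * k + 1) ≤ 2 * (p * k) := by
      rw [Nat.mul_assoc]
      exact Nat.mul_le_mul_left 2 h2
    nlinarith
  exact ⟨hLk, key L (Finset.Subset.refl L) (by omega)⟩

/-- Main statement 3 of this file. -/
theorem pos_lt (p R v y t : ℕ) (hy : y < p) : pos p R v y t < p ^ (t + 1) := by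
  have hp : 0 < p := by omega
  induction t with
  | zero => simpa [pos] using hy
  | succ t ih =>
    have hdv : dv p R v y t < p := Nat.mod_lt _ hp
    show pos p R v y t * p + dv p R v y t < p ^ (t + 1 + 1)
    have h1 : (pos p R v y t + 1) * p ≤ p ^ (t + 1) * p := Nat.mul_le_mul_right p ih
    rw [pow_succ p (t + 1)]
    nlinarith

end Pool.Agent.Helper650_Lossy

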