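import Pool.Agent.Helper650_Lossy.Param
import Pool.Agent.Helper650_HSK.FPoly

/-!
# Polynomial time

As in `Pool/Agent/Helper650_HSK/FPoly.lean` (there `poly_tup`, `j8_pow`, `j8_dig`, `j8_hsh` and the use
of `fun_prop`, see also `Pool/Agent/H671R2/PolyAuto.lean`) and `Pool/Agent/Helper650_HSK/KernelPoly.lean`
(`poly_shrink`, `poly_greedy`, `poly_idxOf`), `uPoly_shrink` and `poly_kerA` in
`Pool/Agent/Helper650_HSK/FinA.lean`.  `R`, `t`, `M`, `e`, `b0`, `d` are constants.  `lossyK` and `lossyL` use `min`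
with the number of vertices of the reduced hypergraph so that the argument of `bb` is bounded in unary.
-/

namespace Pool.Agent.Helper650_Lossy

open Pool.Agent.NPC Pool.Agent.Helper650_HSK
open List (range)

theorem h155_poly_dsum (R : ℕ) {α : Type} [TEnc α] {p v y : α → ℕ} (hp : NPC.Poly p)
    (hv : NPC.Poly v) (hy : NPC.Poly y) (i : ℕ) :
    NPC.Poly (fun a => dsum (p a) (v a) (y a) i R) := by
  induction R with
  | zero => exact (NPC.Poly.const 0).congr fun a => rfl
  | succ R ih =>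
    have h1 : NPC.Poly (fun a => v a / p a ^ R % p a) :=
      NPC.Poly.mod (NPC.Poly.div hv (j8_pow hp R)) hp
    have h2 : NPC.Poly (fun a => R.descFactorial i * y a ^ (R - i)) :=
      NPC.Poly.mul (NPC.Poly.const _) (j8_pow hy _)
    exact (NPC.Poly.add ih (NPC.Poly.mul h1 h2)).congr fun a => rfl

theorem h155_poly_dv (R i : ℕ) {α : Type} [TEnc α] {p v y : α → ℕ} (hp : NPC.Poly p)
    (hv : NPC.Poly v) (hy : NPC.Poly y) : NPC.Poly (fun a => dv (p a) R (v a) (y a) i) :=
  (NPC.Poly.mod (h155_poly_dsum R hp hv hy i) hp).congr fun _ => rfl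

/-- Main statement 1 of this file. -/
theorem poly_pos (R t : ℕ) {α : Type} [TEnc α] {p v y : α → ℕ} (hp : Poly p) (hv : Poly v)
    (hy : Poly y) : Poly (fun a => pos (p a) R (v a) (y a) t) := by
  induction t with
  | zero => exact hy.congr fun a => rfl
  | succ t ih =>
    exact (NPC.Poly.add (NPC.Poly.mul ih hp) (h155_poly_dv R t hp hv hy)).congr fun a => rfl

theorem h155_poly_dbl : NPC.Poly (fun x : Inst => ((x.1, 2 * x.2) : Inst)) :=
  NPC.Poly.pair (NPC.Poly.fst NPC.Poly.id)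
    (NPC.Poly.mul (NPC.Poly.const 2) (NPC.Poly.snd NPC.Poly.id))

theorem h155_poly_red (d : ℕ) : NPC.Poly (red d) :=
  ((poly_shrink d).comp h155_poly_dbl).congr fun _ => rfl

theorem h155_poly_redV (d : ℕ) : NPC.Poly (redV d) :=
  ((R544.poly_dedup (NPC.Poly.flatten (poly_greedy d))).comp h155_poly_dbl).congr fun _ => rfl

theorem h155_uPoly_red (d : ℕ) : UPoly (fun x : Inst => (red d x).1.1) :=
  UPoly.length (l := redV d) (h155_poly_redV d)

/-- the prime -/
def h155P (d M e b0 : ℕ) (x : Inst) : ℕ := pp M (bb e b0 (min x.2 (red d x).1.1))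

theorem h155_uPoly_P (d M e b0 : ℕ) : UPoly (h155P d M e b0) :=
  uPoly_pp M (uPoly_bb e b0 (R544.uPoly_min (NPC.Poly.snd NPC.Poly.id) (h155_uPoly_red d)))

theorem h155_poly_choices (R t d : ℕ) {α : Type} [TEnc α] {p : α → ℕ} {E : α → List (List ℕ)}
    (hp : UPoly p) (hE : NPC.Poly E) :
    NPC.Poly (fun a => prodE (fun v y => pos (p a) R v y t) d (p a) (E a)) := by
  unfold prodE choices
  have h1 : NPC.Poly p := hp.toPoly
  have h2 : NPC.Poly (fun x : α × List ℕ => tup (p x.1) d) :=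
    (poly_tup hp d).comp (NPC.Poly.fst NPC.Poly.id)
  refine NPC.Poly.flatMap (F := fun a (e : List ℕ) => (tup (p a) d).map (fun ys =>
    ((e.zip ys).map (fun q => pos (p a) R q.1 q.2 t)).dedup)) hE ?_
  refine NPC.Poly.map (α := α × List ℕ) (l := fun x => tup (p x.1) d)
    (F := fun x ys => ((x.2.zip ys).map (fun q => pos (p x.1) R q.1 q.2 t)).dedup) h2 ?_
  refine R544.poly_dedup ?_
  refine NPC.Poly.map (α := (α × List ℕ) × List ℕ) (l := fun x => x.1.2.zip x.2)
    (F := fun x q => pos (p x.1.1) R q.1 q.2 t) ?_ ?_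
  · exact NPC.Poly.zip (NPC.Poly.snd (NPC.Poly.fst NPC.Poly.id)) (NPC.Poly.snd NPC.Poly.id)
  · exact poly_pos R t (h1.comp (NPC.Poly.fst (NPC.Poly.fst (NPC.Poly.fst NPC.Poly.id))))
      (NPC.Poly.fst (NPC.Poly.snd NPC.Poly.id)) (NPC.Poly.snd (NPC.Poly.snd NPC.Poly.id))

/-- Main statement 2 of this file. -/
theorem poly_lossyK (d R M e b0 : ℕ) : Poly (lossyK d R M e b0) := by
  have hr := h155_poly_red d
  have hu := h155_uPoly_red d
  have hP := h155_uPoly_P d M e b0
  have h1 := h155_poly_choices R (M - 1) d (E := fun x : Inst => (red d x).1.2) hP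
    (NPC.Poly.snd (NPC.Poly.fst hr))
  refine (NPC.Poly.cond (b := fun x : Inst => decide ((red d x).1.1 ≤ x.2))
    (NPC.Poly.decide_le hu.toPoly (NPC.Poly.snd NPC.Poly.id))
    (NPC.Poly.pair (NPC.Poly.fst hr) (NPC.Poly.snd NPC.Poly.id))
    (NPC.Poly.pair (NPC.Poly.pair (j8_pow hP.toPoly M) h1)
      (NPC.Poly.mul hP.toPoly (NPC.Poly.snd NPC.Poly.id)))).congr fun x => rfl

/-- Main statement 3 of this file. -/
theorem poly_lossyL (d R M e b0 : ℕ) : Poly (lossyL d R M e b0) := by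
  have hr := h155_poly_red d
  have hu := h155_uPoly_red d
  have hP := h155_uPoly_P d M e b0
  have hV : NPC.Poly (fun z : Inst × List ℕ => redV d z.1) :=
    (h155_poly_redV d).comp (NPC.Poly.fst NPC.Poly.id)
  have hc : NPC.Poly (fun z : Inst × List ℕ => decide ((red d z.1).1.1 ≤ z.1.2)) :=
    NPC.Poly.decide_le (hu.toPoly.comp (NPC.Poly.fst NPC.Poly.id))
      (NPC.Poly.snd (NPC.Poly.fst NPC.Poly.id))
  have hidx : NPC.Poly (fun q : (Inst × List ℕ) × ℕ => (redV d q.1.1).idxOf q.2) :=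
    poly_idxOf (hV.comp (NPC.Poly.fst NPC.Poly.id)) (NPC.Poly.snd NPC.Poly.id)
  have h1 : NPC.Poly (fun z : Inst × List ℕ =>
      (redV d z.1).filter (fun v => decide ((redV d z.1).idxOf v ∈ z.2))) := by
    refine NPC.Poly.filter (p := fun (z : Inst × List ℕ) v =>
      decide ((redV d z.1).idxOf v ∈ z.2)) hV ?_
    exact NPC.Poly.dec_mem hidx (NPC.Poly.snd (NPC.Poly.fst NPC.Poly.id))
  have h2 : NPC.Poly (fun z : Inst × List ℕ =>
      (redV d z.1).filter (fun v => (range (h155P d M e b0 z.1)).all (fun y =>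
        decide (pos (h155P d M e b0 z.1) R ((redV d z.1).idxOf v) y (M - 1) ∈ z.2)))) := by
    refine NPC.Poly.filter (p := fun (z : Inst × List ℕ) v =>
      (range (h155P d M e b0 z.1)).all (fun y =>
        decide (pos (h155P d M e b0 z.1) R ((redV d z.1).idxOf v) y (M - 1) ∈ z.2))) hV ?_
    refine NPC.Poly.all (α := (Inst × List ℕ) × ℕ) (l := fun q => range (h155P d M e b0 q.1.1))
      (p := fun q y => decide (pos (h155P d M e b0 q.1.1) R ((redV d q.1.1).idxOf q.2) y (M - 1)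
        ∈ q.1.2)) (hP.range.comp (NPC.Poly.fst (NPC.Poly.fst NPC.Poly.id))) ?_
    refine NPC.Poly.dec_mem ?_ (NPC.Poly.snd (NPC.Poly.fst (NPC.Poly.fst NPC.Poly.id)))
    exact poly_pos R (M - 1)
      (hP.toPoly.comp (NPC.Poly.fst (NPC.Poly.fst (NPC.Poly.fst NPC.Poly.id))))
      (hidx.comp (NPC.Poly.fst NPC.Poly.id)) (NPC.Poly.snd NPC.Poly.id)
  exact (NPC.Poly.cond hc h1 h2).congr fun z => rfl

end Pool.Agent.Helper650_Lossy

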