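import Pool.Agent.Helper650_Lossy.Defs

/-!
# The product hypergraph
-/

namespace Pool.Agent.Helper650_Lossy

open Pool.Agent.NPC Pool.Agent.Helper650_HSK
open List (range)

theorem h447_mem_choices {P : ℕ → ℕ → ℕ} {d p : ℕ} {e f : List ℕ} :
    f ∈ choices P d p e ↔ ∃ ys : List ℕ, (ys.length = d ∧ ∀ y ∈ ys, y < p) ∧
      ((e.zip ys).map (fun q => P q.1 q.2)).dedup = f := by
  unfold choices
  rw [List.mem_map]
  constructor
  · rintro ⟨ys, h1, h2⟩
    exact ⟨ys, mem_tup.1 h1, h2⟩
  · rintro ⟨ys, h1, h2⟩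
    exact ⟨ys, mem_tup.2 h1, h2⟩

/-- Main statement 1 of this file. -/
theorem prodE_hyp (P : ℕ → ℕ → ℕ) (d p n N : ℕ) (E : List (List ℕ)) (hd : 1 ≤ d)
    (hP : ∀ v < n, ∀ y < p, P v y < N) (hE : IsHyp d (n, E)) : IsHyp d (N, prodE P d p E) := by
  intro f hf
  unfold prodE at hf
  rw [List.mem_flatMap] at hf
  obtain ⟨e, he, hf⟩ := hf
  obtain ⟨ys, ⟨hl, hy⟩, rfl⟩ := h447_mem_choices.1 hf
  obtain ⟨h1, h2, h3, h4⟩ := hE e he
  refine ⟨?_, List.nodup_dedup _, ?_, ?_⟩
  · intro h
    rw [List.dedup_eq_nil, List.map_eq_nil_iff] at h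
    have h5 := congrArg List.length h
    rw [List.length_zip, List.length_nil] at h5
    have h6 : 0 < e.length := List.length_pos_iff.2 h1
    omega
  · refine (List.dedup_sublist _).length_le.trans ?_
    rw [List.length_map, List.length_zip]
    omega
  · intro v hv
    rw [List.mem_dedup, List.mem_map] at hv
    obtain ⟨⟨a, b⟩, hq, rfl⟩ := hv
    have h5 := List.of_mem_zip hq
    exact hP a (h4 a h5.1) b (hy b h5.2)

/-- Main statement 2 of this file. -/
theorem prodE_length (P : ℕ → ℕ → ℕ) (d p : ℕ) (E : List (List ℕ)) :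
    (prodE P d p E).length = E.length * p ^ d := by
  unfold prodE
  apply length_flatMap_const
  intro e _
  unfold choices
  rw [List.length_map]
  simp [tup, length_tupL]

/-- Main statement 3 of this file. -/
theorem prodE_complete (P : ℕ → ℕ → ℕ) (d p : ℕ) (E : List (List ℕ))
    (hE : ∀ e ∈ E, e.length ≤ d) (S : Finset ℕ) (hS : Hits S E) :
    Hits (S.biUnion (fun v => (Finset.range p).image (P v))) (prodE P d p E) := by
  intro f hf
  unfold prodE at hf
  rw [List.mem_flatMap] at hf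
  obtain ⟨e, he, hf⟩ := hf
  obtain ⟨ys, ⟨hl, hy⟩, rfl⟩ := h447_mem_choices.1 hf
  obtain ⟨v, hv, hvS⟩ := hS e he
  obtain ⟨i, hi, rfl⟩ := List.mem_iff_getElem.1 hv
  have hle := hE e he
  have hi' : i < ys.length := by omega
  refine ⟨P e[i] ys[i], ?_, ?_⟩
  · rw [List.mem_dedup, List.mem_map]
    refine ⟨(e[i], ys[i]), ?_, rfl⟩
    rw [List.mem_iff_getElem]
    exact ⟨i, by rw [List.length_zip]; omega, List.getElem_zip⟩
  · rw [Finset.mem_biUnion]
    refine ⟨e[i], hvS, ?_⟩
    rw [Finset.mem_image]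
    exact ⟨ys[i], Finset.mem_range.2 (hy _ (List.getElem_mem _)), rfl⟩

/-- Main statement 4 of this file. -/
theorem prodE_sound (P : ℕ → ℕ → ℕ) (d p n : ℕ) (E : List (List ℕ)) (hE : IsHyp d (n, E))
    (X : Finset ℕ) (hX : Hits X (prodE P d p E)) :
    Hits ((Finset.range n).filter (fun v => ∀ y < p, P v y ∈ X)) E := by
  intro e he
  obtain ⟨h1, h2, h3, h4⟩ := hE e he
  by_contra hcon
  have h5 : ∀ v ∈ e, ∃ y < p, P v y ∉ X := by
    intro v hv
    by_contra h
    push Not at h
    exact hcon ⟨v, hv, Finset.mem_filter.2 ⟨Finset.mem_range.2 (h4 v hv), h⟩⟩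
  choose! g hg1 hg2 using h5
  obtain ⟨v0, hv0⟩ := List.exists_mem_of_ne_nil e h1
  have hp : 0 < p := lt_of_le_of_lt (Nat.zero_le _) (hg1 v0 hv0)
  set ys : List ℕ := e.map g ++ List.replicate (d - e.length) 0 with hys
  have hl : ys.length = d := by
    rw [hys, List.length_append, List.length_map, List.length_replicate]
    omega
  have hy : ∀ y ∈ ys, y < p := by
    intro y hy
    rw [hys, List.mem_append] at hy
    rcases hy with hy | hy
    · rw [List.mem_map] at hy
      obtain ⟨v, hv, rfl⟩ := hy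
      exact hg1 v hv
    · rw [List.eq_of_mem_replicate hy]
      exact hp
  have hmem : ((e.zip ys).map (fun q => P q.1 q.2)).dedup ∈ prodE P d p E := by
    unfold prodE
    rw [List.mem_flatMap]
    exact ⟨e, he, h447_mem_choices.2 ⟨ys, ⟨hl, hy⟩, rfl⟩⟩
  obtain ⟨w, hw, hwX⟩ := hX _ hmem
  rw [List.mem_dedup, List.mem_map] at hw
  obtain ⟨⟨a, b⟩, hq, rfl⟩ := hw
  obtain ⟨i, hi, hab⟩ := List.mem_iff_getElem.1 hq
  rw [List.length_zip] at hi
  have hie : i < e.length := by omega
  rw [List.getElem_zip] at hab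
  have ha : e[i] = a := congrArg Prod.fst hab
  have hb : ys[i] = b := congrArg Prod.snd hab
  have hb' : b = g a := by
    rw [← hb, ← ha]
    simp only [hys]
    rw [List.getElem_append_left (by rw [List.length_map]; exact hie), List.getElem_map]
  have hae : a ∈ e := by rw [← ha]; exact List.getElem_mem _
  simp only at hwX
  rw [hb'] at hwX
  exact hg2 a hae hwX

end Pool.Agent.Helper650_Lossy

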