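import Pool.Agent.Helper650_Lossy.Defs

/-!
# The greedy kernel for the parameter 2k

All this is proved as in `shrink_ok` in `Pool/Agent/Helper650_HSK/Kernel.lean` (for
`shrink d x`, with parameter `k` in place of `2 k`): see its proof, and use the lemmas `k1_inv`, `k1_hits`
there.  `red d x` is `shrink d (x.1, 2 * x.2)`, so its number of vertices is `(redV d x).length`, its edges are
the kept edges with every vertex `v` replaced by `(redV d x).idxOf v`.  Part 2: `S'` is the set of the indices
of the members of `redV d x` in `S`.  Part 3: the members of `redV d x` with `T (index)` are distinct and are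
in bijection with the indices with `T`; the set of these vertices meets all kept edges and has at most `2 k`
elements, so by `k1_hits` (with `2 k`) it meets all edges.
-/

namespace Pool.Agent.Helper650_Lossy

open Pool.Agent.NPC Pool.Agent.Helper650_HSK
open List (range)

theorem h412_memV (d : ℕ) (x : Inst) (e : List ℕ) (he : e ∈ greedy d (2 * x.2) x.1.2) (v : ℕ)
    (hv : v ∈ e) : v ∈ redV d x := by
  unfold redV
  rw [List.mem_dedup, List.mem_flatten]
  exact ⟨e, he, hv⟩

theorem h412_hE (d : ℕ) (x : Inst) (hx : IsHyp d x.1) : ∀ e ∈ x.1.2, e.Nodup ∧ e.length ≤ d :=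
  fun e he => ⟨(hx e he).2.1, (hx e he).2.2.1⟩

theorem h412_V_lt (d : ℕ) (x : Inst) (hx : IsHyp d x.1) (v : ℕ) (hv : v ∈ redV d x) :
    v < x.1.1 := by
  have hinv := k1_inv d (2 * x.2) x.1.2 (h412_hE d x hx)
  unfold redV at hv
  rw [List.mem_dedup, List.mem_flatten] at hv
  obtain ⟨e, he, hv⟩ := hv
  exact (hx e (hinv.sub e he)).2.2.2 v hv

theorem h412_red_eq (d : ℕ) (x : Inst) :
    red d x = (((redV d x).length,
      (greedy d (2 * x.2) x.1.2).map (fun e => e.map (fun v => (redV d x).idxOf v))), 2 * x.2) := rfl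

/-- Main statement 1 of this file. -/
theorem red_ok (d : ℕ) (hd : 1 ≤ d) (x : Inst) (hx : IsHyp d x.1) :
    IsHyp d (red d x).1 ∧ (red d x).1.1 = (redV d x).length ∧
      (red d x).1.1 ≤ d * (2 * x.2 + 1) ^ d ∧ (red d x).1.2.length ≤ (2 * x.2 + 1) ^ d := by
  have h := shrink_ok d hd (x.1, 2 * x.2) hx
  exact ⟨h.1, rfl, h.2.2.2.1, h.2.2.2.2⟩

/-- Main statement 2 of this file. -/
theorem red_forward (d : ℕ) (hd : 1 ≤ d) (x : Inst) (hx : IsHyp d x.1) (S : Finset ℕ)
    (hS : Hits S x.1.2) : ∃ S' : Finset ℕ, S' ⊆ Finset.range (red d x).1.1 ∧ S'.card ≤ S.card ∧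
      Hits S' (red d x).1.2 := by
  have _ := hd
  have hinv := k1_inv d (2 * x.2) x.1.2 (h412_hE d x hx)
  rw [h412_red_eq]
  refine ⟨(S.filter (· ∈ redV d x)).image (fun v => (redV d x).idxOf v), ?_, ?_, ?_⟩
  · intro i hi
    obtain ⟨v, hv, rfl⟩ := Finset.mem_image.1 hi
    exact Finset.mem_range.2 (List.idxOf_lt_length_iff.2 (Finset.mem_filter.1 hv).2)
  · exact Finset.card_image_le.trans (Finset.card_filter_le _ _)
  · intro e' he'
    obtain ⟨e, he, rfl⟩ := List.mem_map.1 he'
    obtain ⟨v, hv, hvS⟩ := hS e (hinv.sub e he)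
    refine ⟨(redV d x).idxOf v, List.mem_map.2 ⟨v, hv, rfl⟩, ?_⟩
    exact Finset.mem_image.2 ⟨v, Finset.mem_filter.2 ⟨hvS, h412_memV d x e he v hv⟩, rfl⟩

/-- Main statement 3 of this file. -/
theorem red_backward (d : ℕ) (hd : 1 ≤ d) (x : Inst) (hx : IsHyp d x.1) (T : ℕ → Bool)
    (hT : Hits ((Finset.range (red d x).1.1).filter (fun i => T i = true)) (red d x).1.2)
    (hc : ((Finset.range (red d x).1.1).filter (fun i => T i = true)).card ≤ 2 * x.2) :
    ((redV d x).filter (fun v => T ((redV d x).idxOf v))).Nodup ∧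
      (∀ v ∈ (redV d x).filter (fun v => T ((redV d x).idxOf v)), v < x.1.1) ∧
      Hits ((redV d x).filter (fun v => T ((redV d x).idxOf v))).toFinset x.1.2 ∧
      ((redV d x).filter (fun v => T ((redV d x).idxOf v))).length =
        ((Finset.range (red d x).1.1).filter (fun i => T i = true)).card := by
  have _ := hd
  rw [h412_red_eq] at hT hc ⊢
  dsimp only at hT hc ⊢
  have hVnd : (redV d x).Nodup := List.nodup_dedup _
  have hnd : ((redV d x).filter (fun v => T ((redV d x).idxOf v))).Nodup := hVnd.filter _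
  have hlen : ((redV d x).filter (fun v => T ((redV d x).idxOf v))).length =
        ((Finset.range (redV d x).length).filter (fun i => T i = true)).card := by
    rw [← List.toFinset_card_of_nodup hnd]
    refine Finset.card_bij (fun v _ => (redV d x).idxOf v) ?_ ?_ ?_
    · intro v hv
      rw [List.mem_toFinset, List.mem_filter] at hv
      rw [Finset.mem_filter, Finset.mem_range]
      exact ⟨List.idxOf_lt_length_iff.2 hv.1, hv.2⟩
    · intro a ha b _ hab
      rw [List.mem_toFinset, List.mem_filter] at ha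
      exact (List.idxOf_inj ha.1).1 hab
    · intro i hi
      rw [Finset.mem_filter, Finset.mem_range] at hi
      have hidx : (redV d x).idxOf ((redV d x)[i]'hi.1) = i := hVnd.idxOf_getElem i hi.1
      refine ⟨(redV d x)[i]'hi.1, ?_, hidx⟩
      rw [List.mem_toFinset, List.mem_filter, hidx]
      exact ⟨List.getElem_mem hi.1, hi.2⟩
  refine ⟨hnd, fun v hv => h412_V_lt d x hx v (List.mem_filter.1 hv).1, ?_, hlen⟩
  refine k1_hits d (2 * x.2) x.1.2 (h412_hE d x hx) _ ?_ ?_
  · rw [List.toFinset_card_of_nodup hnd, hlen]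
    exact hc
  · intro e he
    obtain ⟨i, hi, hiT⟩ := hT _ (List.mem_map.2 ⟨e, he, rfl⟩)
    obtain ⟨v, hv, rfl⟩ := List.mem_map.1 hi
    refine ⟨v, hv, ?_⟩
    rw [List.mem_toFinset, List.mem_filter]
    exact ⟨h412_memV d x e he v hv, (Finset.mem_filter.1 hiT).2⟩

end Pool.Agent.Helper650_Lossy

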