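import Pool.Agent.Helper650_Lossy.Num2
import Pool.Agent.Helper650_Lossy.NatExpand
import Pool.Agent.Helper650_Lossy.Prod
import Pool.Agent.Helper650_Lossy.Red
import Pool.Agent.Helper650_Lossy.PolyL

/-!
# Near-linear lossy kernels
-/

namespace Pool.Agent.Helper650_Lossy

open Pool.Agent.NPC Pool.Agent.Helper650_HSK
open List (range)

/-- The properties of the parameters. -/
theorem params (d M e Q R b0 k b p n : ℕ) (hM : 3 ≤ M) (he : e = M * (M - 2)) (hR : R = e * d + 1)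
    (hQ : Q = R * M) (hb0 : b0 = (2 * Q) ^ 2 + d + 2) (hb : b0 ≤ b) (hbk : 4 * k + 2 < b ^ e)
    (hp1 : b ^ M ≤ p) (hp2 : p ≤ 2 * b ^ M) (hn : n ≤ d * (2 * k + 1) ^ d) :
    1 ≤ Q ∧ 1 ≤ e ∧ (2 * Q) ^ 2 ≤ b ∧ 2 * (R * ((M - 1 + 1) * b ^ (M - 1))) < p ∧
      p * (2 * k + 1) < (b ^ (M - 1)) ^ (M - 1 + 1) ∧ n ≤ p ^ R := by
  have hQ1 : 1 ≤ Q := by
    rw [hQ, hR]
    exact Nat.mul_pos (by omega) (by omega)
  have he1 : 1 ≤ e := by
    rw [he]
    exact Nat.mul_pos (by omega) (by omega)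
  have hb2 : 2 ≤ b := by omega
  have hbd : d ≤ b := by omega
  have hQb : (2 * Q) ^ 2 ≤ b := by omega
  have hM1 : M - 1 + 1 = M := by omega
  have hbp : b ^ M = b * b ^ (M - 1) := by
    rw [← pow_succ', hM1]
  have hpos : 0 < b ^ (M - 1) := pow_pos (by omega) _
  refine ⟨hQ1, he1, hQb, ?_, ?_, ?_⟩
  · have h1 : 2 * Q < b := by nlinarith
    calc 2 * (R * ((M - 1 + 1) * b ^ (M - 1))) = 2 * Q * b ^ (M - 1) := by
          rw [hM1, hQ]
          ring
      _ < b * b ^ (M - 1) := Nat.mul_lt_mul_of_pos_right h1 hpos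
      _ = b ^ M := hbp.symm
      _ ≤ p := hp1
  · have h1 : 0 < b ^ M := pow_pos (by omega) _
    calc p * (2 * k + 1) ≤ 2 * b ^ M * (2 * k + 1) := Nat.mul_le_mul_right _ hp2
      _ = b ^ M * (4 * k + 2) := by ring
      _ < b ^ M * b ^ e := Nat.mul_lt_mul_of_pos_left hbk h1
      _ = (b ^ (M - 1)) ^ (M - 1 + 1) := by
          rw [← pow_add, ← pow_mul, he]
          congr 1
          obtain ⟨m, rfl⟩ : ∃ m, M = m + 3 := ⟨M - 3, by omega⟩
          have e1 : m + 3 - 2 = m + 1 := by omega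
          have e2 : m + 3 - 1 = m + 2 := by omega
          rw [e1, e2]
          ring
  · have hbp1 : b ≤ p := by
      calc b = b ^ 1 := (pow_one b).symm
        _ ≤ b ^ M := Nat.pow_le_pow_right (by omega) (by omega)
        _ ≤ p := hp1
    calc n ≤ d * (2 * k + 1) ^ d := hn
      _ ≤ b * (b ^ e) ^ d := Nat.mul_le_mul hbd (Nat.pow_le_pow_left (by omega) _)
      _ = b ^ R := by rw [hR, ← pow_mul, pow_succ]; ring
      _ ≤ p ^ R := Nat.pow_le_pow_left hbp1 _

theorem main_lossy (d : ℕ) (hd : 1 ≤ d) (ε : ℝ) (hε : 0 < ε) :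
    ∃ (K L : List Bool → List Bool) (C c : ℝ) (h : Polynomial ℕ), 0 < c ∧ PolyTime K ∧
      PolyTime L ∧ ∀ x : Inst, IsHyp d x.1 → ∃ (y : Inst) (T : ℕ), K (bits x) = bits y ∧
        IsHyp d y.1 ∧ (bits y).length ≤ h.eval x.2 ∧
        (y.1.1 : ℝ) ≤ C * ((x.2 : ℝ) + 1) ^ (1 + ε) ∧
        (y.1.2.length : ℝ) ≤ C * ((x.2 : ℝ) + 1) ^ ((d : ℝ) + ε) ∧
        1 ≤ T ∧ y.2 = T * x.2 ∧
        (∀ S : Finset ℕ, Hits S x.1.2 →
          ∃ X ⊆ Finset.range y.1.1, Hits X y.1.2 ∧ X.card ≤ T * S.card) ∧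
        ∀ X : List ℕ, X.Nodup → Hits X.toFinset y.1.2 → X.length ≤ y.2 →
          ∃ S : List ℕ, L (bits (x, X)) = bits S ∧ S.Nodup ∧ (∀ v ∈ S, v < x.1.1) ∧
            Hits S.toFinset x.1.2 ∧
            (S.length : ℝ) ≤ (1 + ((x.2 : ℝ) + 1) ^ (-c)) * ((X.length : ℝ) / T) := by
  obtain ⟨M, hM, C0, hC0, hexp⟩ := num_exp2 d ε hε (fun M =>
    ((2 * (((M * (M - 2)) * d + 1) * M)) ^ 2 + d + 2) ^ (M * (M - 2)) + 4 * 2 ^ (M * (M - 2)))
  obtain ⟨e, he⟩ : ∃ e, e = M * (M - 2) := ⟨_, rfl⟩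
  obtain ⟨R, hR⟩ : ∃ R, R = e * d + 1 := ⟨_, rfl⟩
  obtain ⟨Q, hQ⟩ : ∃ Q, Q = R * M := ⟨_, rfl⟩
  obtain ⟨b0, hb0⟩ : ∃ b0, b0 = (2 * Q) ^ 2 + d + 2 := ⟨_, rfl⟩
  have he1 : 1 ≤ e := by
    rw [he]
    exact Nat.mul_pos (by omega) (by omega)
  have hR1 : 1 ≤ R := by omega
  obtain ⟨r, hr⟩ := length_bits_le d
  obtain ⟨C1, hC1⟩ : ∃ C1, C1 = b0 ^ e + 4 * 2 ^ e := ⟨_, rfl⟩
  obtain ⟨q, hq⟩ : ∃ q : Polynomial ℕ,
      q = Polynomial.C 2 * (Polynomial.C C1 * (Polynomial.X + 1)) ^ M := ⟨_, rfl⟩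
  have hqe : ∀ k, q.eval k = 2 * (C1 * (k + 1)) ^ M := fun k => by
    rw [hq]
    simp
  have hPK := poly_lossyK d R M e b0
  have hPL := poly_lossyL d R M e b0
  refine ⟨_, _, max (2 ^ d * C0) (2 ^ d), 1 / (2 * (e : ℝ)),
    r.comp (q ^ M + Polynomial.X + (2 * Polynomial.X + 1) ^ d * (q ^ d + 1) +
      (q + 1) * Polynomial.X), ?_,
    polyTime_opt (NPC.Poly.optMap (o := unbits Inst) (f := fun _ a => lossyK d R M e b0 a)
      poly_unbits (hPK.comp (NPC.Poly.snd NPC.Poly.id))),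
    polyTime_opt (NPC.Poly.optMap (o := unbits (Inst × List ℕ))
      (f := fun _ a => lossyL d R M e b0 a)
      poly_unbits (hPL.comp (NPC.Poly.snd NPC.Poly.id))), ?_⟩
  · have : (0 : ℝ) < (e : ℝ) := by exact_mod_cast he1
    positivity
  intro x hx
  obtain ⟨hr1, hr2, hr3, hr4⟩ := red_ok d hd x hx
  have hk1 : (1 : ℝ) ≤ (x.2 : ℝ) + 1 := by
    have : (0 : ℝ) ≤ (x.2 : ℝ) := Nat.cast_nonneg _
    linarith
  have hk0 : (0 : ℝ) ≤ (x.2 : ℝ) + 1 := by linarith
  have hE4 : ((red d x).1.2.length : ℝ) ≤ 2 ^ d * ((x.2 : ℝ) + 1) ^ (d : ℝ) := by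
    have h1 : (red d x).1.2.length ≤ 2 ^ d * (x.2 + 1) ^ d := by
      calc (red d x).1.2.length ≤ (2 * x.2 + 1) ^ d := hr4
        _ ≤ (2 * (x.2 + 1)) ^ d := Nat.pow_le_pow_left (by omega) _
        _ = 2 ^ d * (x.2 + 1) ^ d := by rw [mul_pow]
    rw [Real.rpow_natCast]
    exact_mod_cast h1
  have hlen0 : (0 : ℝ) ≤ ((red d x).1.2.length : ℝ) := Nat.cast_nonneg _
  by_cases htriv : (red d x).1.1 ≤ x.2
  · have hK : lossyK d R M e b0 x = ((red d x).1, x.2) := by
      rw [lossyK, decide_eq_true htriv]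
      rfl
    refine ⟨((red d x).1, x.2), 1, by simp [unbits_bits, hK], hr1, ?_, ?_, ?_, le_rfl,
      by simp, ?_, ?_⟩
    · refine (hr ((red d x).1, x.2) hr1).trans ?_
      rw [Polynomial.eval_comp]
      refine eval_mono r ?_
      simp only [Polynomial.eval_add, Polynomial.eval_mul, Polynomial.eval_pow,
        Polynomial.eval_X, Polynomial.eval_one, hqe, Polynomial.eval_ofNat]
      have h1 : (2 * x.2 + 1) ^ d * 1 ≤ (2 * x.2 + 1) ^ d * ((2 * (C1 * (x.2 + 1)) ^ M) ^ d + 1) :=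
        Nat.mul_le_mul_left _ (by omega)
      have h2 : 1 * x.2 ≤ (2 * (C1 * (x.2 + 1)) ^ M + 1) * x.2 :=
        Nat.mul_le_mul_right _ (by omega)
      omega
    · have h1 : ((red d x).1.1 : ℝ) ≤ (x.2 : ℝ) := by exact_mod_cast htriv
      have h2 : (x.2 : ℝ) + 1 ≤ ((x.2 : ℝ) + 1) ^ (1 + ε) := by
        calc (x.2 : ℝ) + 1 = ((x.2 : ℝ) + 1) ^ (1 : ℝ) := (Real.rpow_one _).symm
          _ ≤ ((x.2 : ℝ) + 1) ^ (1 + ε) := Real.rpow_le_rpow_of_exponent_le hk1 (by linarith)
      have h3 : (1 : ℝ) ≤ max (2 ^ d * C0) (2 ^ d) :=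
        le_max_of_le_right (one_le_pow₀ (by norm_num))
      show ((red d x).1.1 : ℝ) ≤ _
      have h4 : (0 : ℝ) ≤ ((x.2 : ℝ) + 1) ^ (1 + ε) := by positivity
      nlinarith
    · show ((red d x).1.2.length : ℝ) ≤ _
      refine hE4.trans ?_
      refine mul_le_mul (le_max_right _ _) (Real.rpow_le_rpow_of_exponent_le hk1 (by linarith))
        (by positivity) (le_max_of_le_right (by positivity))
    · intro S hS
      obtain ⟨S', h1, h2, h3⟩ := red_forward d hd x hx S hS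
      exact ⟨S', h1, h3, by simpa using h2⟩
    · intro X hXn hX hXk
      obtain ⟨T, hT⟩ : ∃ T : ℕ → Bool, T = fun i => decide (i ∈ X) := ⟨_, rfl⟩
      have hsub : (Finset.range (red d x).1.1).filter (fun i => T i = true) ⊆ X.toFinset := by
        intro i hi
        rw [Finset.mem_filter, hT] at hi
        simpa using hi.2
      have hcard : ((Finset.range (red d x).1.1).filter (fun i => T i = true)).card ≤
          X.length := (Finset.card_le_card hsub).trans (List.toFinset_card_le X)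
      have hhit : Hits ((Finset.range (red d x).1.1).filter (fun i => T i = true))
          (red d x).1.2 := by
        intro e he
        obtain ⟨v, hv1, hv2⟩ := hX e he
        refine ⟨v, hv1, ?_⟩
        rw [Finset.mem_filter, Finset.mem_range]
        refine ⟨(hr1 e he).2.2.2 v hv1, ?_⟩
        rw [hT]
        simpa using hv2
      obtain ⟨b1, b2, b3, b4⟩ := red_backward d hd x hx T hhit
        (hcard.trans (by have : X.length ≤ x.2 := hXk; omega))
      have hL : lossyL d R M e b0 (x, X) =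
          (redV d x).filter (fun v => T ((redV d x).idxOf v)) := by
        rw [lossyL, decide_eq_true htriv, hT]
        rfl
      refine ⟨_, by simp [unbits_bits, hL], b1, b2, b3, ?_⟩
      rw [b4]
      have h5 : (((Finset.range (red d x).1.1).filter (fun i => T i = true)).card : ℝ) ≤
          (X.length : ℝ) := by exact_mod_cast hcard
      have h6 : (0 : ℝ) ≤ ((x.2 : ℝ) + 1) ^ (-(1 / (2 * (e : ℝ)))) := by positivity
      have h7 : (0 : ℝ) ≤ (X.length : ℝ) := Nat.cast_nonneg _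
      simp only [Nat.cast_one, div_one]
      nlinarith
  · have hmin : min x.2 (red d x).1.1 = x.2 := min_eq_left (by omega)
    obtain ⟨b, hbdef⟩ : ∃ b, b = bb e b0 x.2 := ⟨_, rfl⟩
    obtain ⟨p, hpdef⟩ : ∃ p, p = pp M b := ⟨_, rfl⟩
    obtain ⟨hb1, hb2, hb3⟩ := bb_spec e b0 x.2 he1 (by omega)
    rw [← hbdef] at hb1 hb2 hb3
    obtain ⟨hp1, hp2, hp3⟩ := pp_spec M b (by omega)
    rw [← hpdef] at hp1 hp2 hp3
    obtain ⟨k1, _, k3, k4, k5, k6⟩ := params d M e Q R b0 x.2 b p (red d x).1.1 hM he hR hQ hb0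
      hb1 hb2 hp2 hp3 hr3
    obtain ⟨x1, x2⟩ := hexp x.2 b p (by
      rw [← he]
      refine hb3.trans ?_
      rw [hb0, hQ, hR]) hp3
    have hpX : p ≤ q.eval x.2 := by
      rw [hqe]
      refine hp3.trans (Nat.mul_le_mul_left _ (Nat.pow_le_pow_left ?_ _))
      calc b = b ^ 1 := (pow_one b).symm
        _ ≤ b ^ e := Nat.pow_le_pow_right (by omega) he1
        _ ≤ C1 * (x.2 + 1) := by rw [hC1]; exact hb3
    have hK : lossyK d R M e b0 x = ((p ^ M, prodE (fun v y => pos p R v y (M - 1)) d p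
        (red d x).1.2), p * x.2) := by
      rw [lossyK, decide_eq_false htriv, hmin, ← hbdef, ← hpdef]
      rfl
    have hM1 : M - 1 + 1 = M := by omega
    have hyp : IsHyp d (p ^ M, prodE (fun v y => pos p R v y (M - 1)) d p (red d x).1.2) := by
      refine prodE_hyp _ d p (red d x).1.1 _ _ hd ?_ hr1
      intro v _ y hy
      have := pos_lt p R v y (M - 1) hy
      rwa [hM1] at this
    refine ⟨((p ^ M, prodE (fun v y => pos p R v y (M - 1)) d p (red d x).1.2), p * x.2), p,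
      by simp [unbits_bits, hK], hyp, ?_, ?_, ?_, hp1.one_le, rfl, ?_, ?_⟩
    · refine (hr _ hyp).trans ?_
      rw [Polynomial.eval_comp]
      refine eval_mono r ?_
      simp only [Polynomial.eval_add, Polynomial.eval_mul, Polynomial.eval_pow,
        Polynomial.eval_X, Polynomial.eval_one, Polynomial.eval_ofNat]
      have h1 : p ^ M ≤ (q.eval x.2) ^ M := Nat.pow_le_pow_left hpX _
      have h2 : (prodE (fun v y => pos p R v y (M - 1)) d p (red d x).1.2).length ≤
          (2 * x.2 + 1) ^ d * ((q.eval x.2) ^ d + 1) := by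
        rw [prodE_length]
        exact Nat.mul_le_mul hr4 ((Nat.pow_le_pow_left hpX _).trans (Nat.le_succ _))
      have h3 : p * x.2 ≤ (q.eval x.2 + 1) * x.2 := Nat.mul_le_mul_right _ (by omega)
      omega
    · refine x1.trans ?_
      refine mul_le_mul_of_nonneg_right ?_ (by positivity)
      refine le_max_of_le_left ?_
      have h1 : (1 : ℝ) ≤ 2 ^ d := one_le_pow₀ (by norm_num)
      nlinarith
    · show ((prodE (fun v y => pos p R v y (M - 1)) d p (red d x).1.2).length : ℝ) ≤ _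
      rw [prodE_length, Nat.cast_mul]
      calc ((red d x).1.2.length : ℝ) * ((p ^ d : ℕ) : ℝ)
          ≤ (2 ^ d * ((x.2 : ℝ) + 1) ^ (d : ℝ)) * (C0 * ((x.2 : ℝ) + 1) ^ ε) :=
            mul_le_mul hE4 x2 (Nat.cast_nonneg _) (by positivity)
        _ = 2 ^ d * C0 * ((x.2 : ℝ) + 1) ^ ((d : ℝ) + ε) := by
            rw [Real.rpow_add (by linarith)]
            ring
        _ ≤ max (2 ^ d * C0) (2 ^ d) * ((x.2 : ℝ) + 1) ^ ((d : ℝ) + ε) :=
            mul_le_mul_of_nonneg_right (le_max_left _ _) (by positivity)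
    · intro S hS
      obtain ⟨S', h1, h2, h3⟩ := red_forward d hd x hx S hS
      refine ⟨S'.biUnion (fun v => (Finset.range p).image (fun y => pos p R v y (M - 1))), ?_,
        prodE_complete _ d p _ (fun e he => (hr1 e he).2.2.1) S' h3, ?_⟩
      · intro a ha
        rw [Finset.mem_biUnion] at ha
        obtain ⟨v, _, hv⟩ := ha
        rw [Finset.mem_image] at hv
        obtain ⟨y, hy, rfl⟩ := hv
        have := pos_lt p R v y (M - 1) (Finset.mem_range.1 hy)
        rw [hM1] at this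
        exact Finset.mem_range.2 this
      · refine Finset.card_biUnion_le.trans ?_
        calc ∑ v ∈ S', ((Finset.range p).image (fun y => pos p R v y (M - 1))).card
            ≤ ∑ _v ∈ S', p := Finset.sum_le_sum fun v _ =>
              (Finset.card_image_le).trans (by rw [Finset.card_range])
          _ = p * S'.card := by rw [Finset.sum_const, smul_eq_mul, mul_comm]
          _ ≤ p * S.card := Nat.mul_le_mul_left _ h2
    · intro X hXn hX hXk
      obtain ⟨T, hT⟩ : ∃ T : ℕ → Bool, T = fun i =>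
        (range p).all (fun y => decide (pos p R i y (M - 1) ∈ X)) := ⟨_, rfl⟩
      have hfil : (Finset.range (red d x).1.1).filter (fun i => T i = true) =
          (Finset.range (red d x).1.1).filter
            (fun v => ∀ y < p, pos p R v y (M - 1) ∈ X.toFinset) := by
        refine Finset.filter_congr fun i _ => ?_
        rw [hT]
        simp
      have hXcard : X.toFinset.card = X.length := List.toFinset_card_of_nodup hXn
      obtain ⟨l1, l2⟩ := ml_list p R (M - 1) (b ^ (M - 1)) x.2 (red d x).1.1 hp1 hR1 k4 k5 k6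
        X.toFinset (by rw [hXcard]; exact hXk)
      have hhit : Hits ((Finset.range (red d x).1.1).filter (fun i => T i = true))
          (red d x).1.2 := by
        rw [hfil]
        exact prodE_sound (fun v y => pos p R v y (M - 1)) d p _ _ hr1 X.toFinset hX
      obtain ⟨b1, b2, b3, b4⟩ := red_backward d hd x hx T hhit (by rw [hfil]; exact l1)
      have hL : lossyL d R M e b0 (x, X) =
          (redV d x).filter (fun v => T ((redV d x).idxOf v)) := by
        rw [lossyL, decide_eq_false htriv]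
        simp only [cond_false]
        rw [hmin, ← hbdef, ← hpdef, hT]
      refine ⟨_, by simp [unbits_bits, hL], b1, b2, b3, ?_⟩
      rw [b4, hfil]
      refine num_loss M e Q x.2 b p _ X.length (by omega) he1 k1 k3 hb2 hp2 ?_
      rw [hXcard] at l2
      rw [hQ, mul_assoc]
      rw [hM1] at l2
      exact l2

end Pool.Agent.Helper650_Lossy
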