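import Mathlib

/-!
# Numerical estimates

Part 1: choose `M ≥ 3` with `M / (M - 2) ≤ 1 + ε` (for example `M ≥ 2 + 2 / ε`).
`p ^ M ≤ 2 ^ M b ^ (M M)` and `b ^ (M M) = (b ^ (M (M - 2))) ^ (M / (M - 2)) ≤ (C' M (k + 1)) ^ (1 + ε)` (if
`C' M = 0` then `b = 0` or so; replace `C' M` by `max 1 (C' M)`), so `C = 2 ^ M (max 1 (C' M)) ^ (1 + ε)`.
Part 2: `Q b ^ (M - 1) ≤ (Q / b) p`, since `b ^ M ≤ p`; `Q / b ≤ 1 / 2`, so
`s ≤ X / (p (1 - Q / b)) ≤ (X / p) (1 + 2 Q / b)`; `2 Q / b ≤ b ^ (-1/2)` by `hb`, and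
`b ^ (-1/2) ≤ (k + 1) ^ (-1/(2 e))` since `b ^ e > 4 k + 2 ≥ k + 1`.
-/

namespace Pool.Agent.Helper650_Lossy

theorem h593_choose (ε : ℝ) (hε : 0 < ε) :
    ∃ M : ℕ, 3 ≤ M ∧ (M : ℝ) / ((M : ℝ) - 2) ≤ 1 + ε := by
  obtain ⟨m, hm⟩ := exists_nat_ge (2 / ε)
  refine ⟨m + 3, by omega, ?_⟩
  have h1 : (0 : ℝ) < ((m + 3 : ℕ) : ℝ) - 2 := by
    push_cast
    have : (0 : ℝ) ≤ (m : ℝ) := Nat.cast_nonneg m
    linarith
  rw [div_le_iff₀ h1]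
  push_cast
  have h2 : 2 ≤ (m : ℝ) * ε := (div_le_iff₀ hε).mp hm
  nlinarith

/-- Main statement 1 of this file. -/
theorem num_exp (ε : ℝ) (hε : 0 < ε) (C' : ℕ → ℕ) : ∃ M : ℕ, 3 ≤ M ∧ ∃ C : ℝ, 0 ≤ C ∧
    ∀ k b p : ℕ, b ^ (M * (M - 2)) ≤ C' M * (k + 1) → p ≤ 2 * b ^ M →
      ((p ^ M : ℕ) : ℝ) ≤ C * ((k : ℝ) + 1) ^ (1 + ε) := by
  obtain ⟨M, hM, hMe⟩ := h593_choose ε hε
  refine ⟨M, hM, 2 ^ M * (max 1 (C' M : ℝ)) ^ (1 + ε), by positivity, ?_⟩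
  intro k b p hb hp
  set N : ℝ := max 1 (C' M : ℝ) with hN
  have hN1 : 1 ≤ N := le_max_left _ _
  have hN2 : (C' M : ℝ) ≤ N := le_max_right _ _
  have hk : (1 : ℝ) ≤ (k : ℝ) + 1 := by
    have : (0 : ℝ) ≤ (k : ℝ) := Nat.cast_nonneg k
    linarith
  have hM2 : ((M - 2 : ℕ) : ℝ) = (M : ℝ) - 2 := by
    rw [Nat.cast_sub (by omega)]
    norm_num
  have hM0 : (0 : ℝ) < (M : ℝ) - 2 := by
    rw [← hM2]
    exact_mod_cast (by omega : 0 < M - 2)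
  have hbR : ((b : ℝ)) ^ (M * (M - 2)) ≤ N * ((k : ℝ) + 1) := by
    have h1 : ((b ^ (M * (M - 2)) : ℕ) : ℝ) ≤ ((C' M * (k + 1) : ℕ) : ℝ) := by exact_mod_cast hb
    push_cast at h1
    refine h1.trans ?_
    exact mul_le_mul_of_nonneg_right hN2 (by linarith)
  have hb0 : (0 : ℝ) ≤ (b : ℝ) := Nat.cast_nonneg b
  have e1 : (b : ℝ) ^ (M * M) = ((b : ℝ) ^ (M * (M - 2))) ^ ((M : ℝ) / ((M : ℝ) - 2)) := by
    rw [← Real.rpow_natCast (b : ℝ) (M * (M - 2)), ← Real.rpow_mul hb0, ← Real.rpow_natCast]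
    congr 1
    push_cast
    rw [hM2]
    field_simp
  have hA : 1 ≤ N * ((k : ℝ) + 1) := by nlinarith
  have h2 : (b : ℝ) ^ (M * M) ≤ N ^ (1 + ε) * ((k : ℝ) + 1) ^ (1 + ε) := by
    rw [e1, ← Real.mul_rpow (by linarith) (by linarith)]
    calc ((b : ℝ) ^ (M * (M - 2))) ^ ((M : ℝ) / ((M : ℝ) - 2))
        ≤ (N * ((k : ℝ) + 1)) ^ ((M : ℝ) / ((M : ℝ) - 2)) :=
          Real.rpow_le_rpow (by positivity) hbR (by positivity)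
      _ ≤ (N * ((k : ℝ) + 1)) ^ (1 + ε) := Real.rpow_le_rpow_of_exponent_le hA hMe
  have h3 : ((p ^ M : ℕ) : ℝ) ≤ 2 ^ M * (b : ℝ) ^ (M * M) := by
    have h4 : p ^ M ≤ 2 ^ M * b ^ (M * M) := by
      calc p ^ M ≤ (2 * b ^ M) ^ M := Nat.pow_le_pow_left hp M
        _ = 2 ^ M * b ^ (M * M) := by rw [mul_pow, ← pow_mul]
    exact_mod_cast h4
  calc ((p ^ M : ℕ) : ℝ) ≤ 2 ^ M * (b : ℝ) ^ (M * M) := h3
    _ ≤ 2 ^ M * (N ^ (1 + ε) * ((k : ℝ) + 1) ^ (1 + ε)) :=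
        mul_le_mul_of_nonneg_left h2 (by positivity)
    _ = 2 ^ M * N ^ (1 + ε) * ((k : ℝ) + 1) ^ (1 + ε) := by ring

/-- Main statement 2 of this file. -/
theorem num_loss (M e Q k b p s X : ℕ) (hM : 1 ≤ M) (he : 1 ≤ e) (hQ : 1 ≤ Q)
    (hb : (2 * Q) ^ 2 ≤ b) (hbk : 4 * k + 2 < b ^ e) (hp : b ^ M ≤ p)
    (h : (p - Q * b ^ (M - 1)) * s ≤ X) :
    (s : ℝ) ≤ (1 + ((k : ℝ) + 1) ^ (-(1 / (2 * (e : ℝ))))) * ((X : ℝ) / p) := by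
  have hQR : (1 : ℝ) ≤ (Q : ℝ) := by exact_mod_cast hQ
  have hbR : (2 * (Q : ℝ)) ^ 2 ≤ (b : ℝ) := by exact_mod_cast hb
  have hb4 : (4 : ℝ) ≤ (b : ℝ) := by nlinarith
  have hb0 : (0 : ℝ) < (b : ℝ) := by linarith
  have hbN : 0 < b := by exact_mod_cast hb0
  have hp0N : 0 < p := lt_of_lt_of_le (pow_pos hbN M) hp
  have hp0 : (0 : ℝ) < (p : ℝ) := by exact_mod_cast hp0N
  have hpR : (b : ℝ) ^ M ≤ (p : ℝ) := by exact_mod_cast hp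
  have hX0 : (0 : ℝ) ≤ (X : ℝ) := Nat.cast_nonneg X
  have hs0 : (0 : ℝ) ≤ (s : ℝ) := Nat.cast_nonneg s
  set x : ℝ := (Q : ℝ) / b with hx
  have hx0 : 0 ≤ x := by positivity
  have hx1 : x ≤ 1 / 2 := by
    rw [hx, div_le_iff₀ hb0]
    nlinarith
  have hqb : (Q : ℝ) * (b : ℝ) ^ (M - 1) ≤ x * p := by
    have e1 : (b : ℝ) ^ M = b ^ (M - 1) * b := by
      rw [← pow_succ]
      congr 1
      omega
    rw [hx, div_mul_eq_mul_div, le_div_iff₀ hb0, mul_assoc, ← e1]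
    exact mul_le_mul_of_nonneg_left hpR (by linarith)
  have hsub : (p : ℝ) * (1 - x) ≤ ((p - Q * b ^ (M - 1) : ℕ) : ℝ) := by
    have h1 : ((p : ℕ) : ℝ) ≤ ((p - Q * b ^ (M - 1) : ℕ) : ℝ) + ((Q * b ^ (M - 1) : ℕ) : ℝ) := by
      exact_mod_cast (by omega : p ≤ (p - Q * b ^ (M - 1)) + Q * b ^ (M - 1))
    push_cast at h1
    nlinarith
  have h2 : (p : ℝ) * (1 - x) * s ≤ X := by
    have h3 : (((p - Q * b ^ (M - 1)) * s : ℕ) : ℝ) ≤ (X : ℝ) := by exact_mod_cast h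
    push_cast at h3
    exact (mul_le_mul_of_nonneg_right hsub hs0).trans h3
  have hxk : 2 * x ≤ ((k : ℝ) + 1) ^ (-(1 / (2 * (e : ℝ)))) := by
    have heR : (0 : ℝ) < (e : ℝ) := by exact_mod_cast (by omega : 0 < e)
    have hk0 : (0 : ℝ) < (k : ℝ) + 1 := by positivity
    have hkb : (k : ℝ) + 1 ≤ (b : ℝ) ^ e := by
      have : k + 1 ≤ b ^ e := by omega
      exact_mod_cast this
    have h4 : ((k : ℝ) + 1) ^ (1 / (2 * (e : ℝ))) ≤ (b : ℝ) ^ ((1 : ℝ) / 2) := by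
      calc ((k : ℝ) + 1) ^ (1 / (2 * (e : ℝ))) ≤ ((b : ℝ) ^ e) ^ (1 / (2 * (e : ℝ))) :=
            Real.rpow_le_rpow hk0.le hkb (by positivity)
        _ = (b : ℝ) ^ ((1 : ℝ) / 2) := by
            rw [← Real.rpow_natCast, ← Real.rpow_mul hb0.le]
            congr 1
            field_simp
    have h5 : 2 * (Q : ℝ) ≤ (b : ℝ) ^ ((1 : ℝ) / 2) := by
      rw [← Real.sqrt_eq_rpow]
      exact Real.le_sqrt_of_sq_le hbR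
    have h6 : 0 < (b : ℝ) ^ ((1 : ℝ) / 2) := Real.rpow_pos_of_pos hb0 _
    have h7 : (b : ℝ) ^ ((1 : ℝ) / 2) * (b : ℝ) ^ ((1 : ℝ) / 2) = b := by
      rw [← Real.rpow_add hb0]
      norm_num
    have h8 : 0 < ((k : ℝ) + 1) ^ (1 / (2 * (e : ℝ))) := Real.rpow_pos_of_pos hk0 _
    rw [Real.rpow_neg hk0.le, hx, ← mul_div_assoc, div_le_iff₀ hb0, inv_mul_eq_div,
      le_div_iff₀ h8]
    calc 2 * (Q : ℝ) * ((k : ℝ) + 1) ^ (1 / (2 * (e : ℝ)))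
        ≤ (b : ℝ) ^ ((1 : ℝ) / 2) * (b : ℝ) ^ ((1 : ℝ) / 2) :=
          mul_le_mul h5 h4 h8.le h6.le
      _ = b := h7
  have h9 : (s : ℝ) ≤ (1 + 2 * x) * ((X : ℝ) / p) := by
    have h10 : (p : ℝ) * s ≤ (1 + 2 * x) * X := by
      have h11 : 1 ≤ (1 - x) * (1 + 2 * x) := by nlinarith
      have h12 : (p : ℝ) * s * 1 ≤ (p : ℝ) * s * ((1 - x) * (1 + 2 * x)) :=
        mul_le_mul_of_nonneg_left h11 (by positivity)
      have h13 : (p : ℝ) * (1 - x) * s * (1 + 2 * x) ≤ X * (1 + 2 * x) :=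
        mul_le_mul_of_nonneg_right h2 (by linarith)
      nlinarith
    rw [← mul_div_assoc, le_div_iff₀ hp0]
    linarith
  refine h9.trans (mul_le_mul_of_nonneg_right (by linarith) (by positivity))

end Pool.Agent.Helper650_Lossy

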