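import Pool.Agent.Helper650_Lossy.Num

/-!
# Numerical estimates, continued
-/

namespace Pool.Agent.Helper650_Lossy

theorem num_exp2 (d : ℕ) (ε : ℝ) (hε : 0 < ε) (C' : ℕ → ℕ) : ∃ M : ℕ, 3 ≤ M ∧ ∃ C : ℝ, 0 ≤ C ∧
    ∀ k b p : ℕ, b ^ (M * (M - 2)) ≤ C' M * (k + 1) → p ≤ 2 * b ^ M →
      ((p ^ M : ℕ) : ℝ) ≤ C * ((k : ℝ) + 1) ^ (1 + ε) ∧
      ((p ^ d : ℕ) : ℝ) ≤ C * ((k : ℝ) + 1) ^ ε := by
  have hd0 : (0 : ℝ) ≤ (d : ℝ) := Nat.cast_nonneg d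
  obtain ⟨M, hM, hMe⟩ := h593_choose (ε / ((d : ℝ) + 1)) (by positivity)
  have hM2 : ((M - 2 : ℕ) : ℝ) = (M : ℝ) - 2 := by
    rw [Nat.cast_sub (by omega)]
    norm_num
  have hM0 : (0 : ℝ) < (M : ℝ) - 2 := by
    rw [← hM2]
    exact_mod_cast (by omega : 0 < M - 2)
  have h2M : 2 / ((M : ℝ) - 2) ≤ ε / ((d : ℝ) + 1) := by
    have : (M : ℝ) / ((M : ℝ) - 2) = 1 + 2 / ((M : ℝ) - 2) := by
      field_simp
      ring
    linarith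
  have h1d : ε / ((d : ℝ) + 1) ≤ ε := div_le_self hε.le (by linarith)
  have hMe1 : (M : ℝ) / ((M : ℝ) - 2) ≤ 1 + ε := hMe.trans (by linarith)
  have hMd : (d : ℝ) / ((M : ℝ) - 2) ≤ ε := by
    have e : (d : ℝ) / ((M : ℝ) - 2) = (d : ℝ) / 2 * (2 / ((M : ℝ) - 2)) := by
      field_simp
    rw [e]
    calc (d : ℝ) / 2 * (2 / ((M : ℝ) - 2)) ≤ (d : ℝ) / 2 * (ε / ((d : ℝ) + 1)) :=
          mul_le_mul_of_nonneg_left h2M (by positivity)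
      _ ≤ ε := by
          rw [div_mul_div_comm, div_le_iff₀ (by positivity)]
          nlinarith
  refine ⟨M, hM, max (2 ^ M * (max 1 (C' M : ℝ)) ^ (1 + ε)) (2 ^ d * (max 1 (C' M : ℝ)) ^ ε),
    le_max_of_le_left (by positivity), ?_⟩
  intro k b p hb hp
  set N : ℝ := max 1 (C' M : ℝ) with hN
  have hN1 : 1 ≤ N := le_max_left _ _
  have hN2 : (C' M : ℝ) ≤ N := le_max_right _ _
  have hk : (1 : ℝ) ≤ (k : ℝ) + 1 := by
    have : (0 : ℝ) ≤ (k : ℝ) := Nat.cast_nonneg k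
    linarith
  have hbR : ((b : ℝ)) ^ (M * (M - 2)) ≤ N * ((k : ℝ) + 1) := by
    have h1 : ((b ^ (M * (M - 2)) : ℕ) : ℝ) ≤ ((C' M * (k + 1) : ℕ) : ℝ) := by exact_mod_cast hb
    push_cast at h1
    refine h1.trans ?_
    exact mul_le_mul_of_nonneg_right hN2 (by linarith)
  have hb0 : (0 : ℝ) ≤ (b : ℝ) := Nat.cast_nonneg b
  have key : ∀ (a : ℕ) (γ : ℝ), (a : ℝ) / ((M : ℝ) - 2) ≤ γ →
      ((p ^ a : ℕ) : ℝ) ≤ 2 ^ a * N ^ γ * ((k : ℝ) + 1) ^ γ := by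
    intro a γ ha
    have e1 : (b : ℝ) ^ (M * a) = ((b : ℝ) ^ (M * (M - 2))) ^ ((a : ℝ) / ((M : ℝ) - 2)) := by
      rw [← Real.rpow_natCast (b : ℝ) (M * (M - 2)), ← Real.rpow_mul hb0, ← Real.rpow_natCast]
      congr 1
      push_cast
      rw [hM2]
      field_simp
    have hA : 1 ≤ N * ((k : ℝ) + 1) := by nlinarith
    have h2 : (b : ℝ) ^ (M * a) ≤ N ^ γ * ((k : ℝ) + 1) ^ γ := by
      rw [e1, ← Real.mul_rpow (by linarith) (by linarith)]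
      calc ((b : ℝ) ^ (M * (M - 2))) ^ ((a : ℝ) / ((M : ℝ) - 2))
          ≤ (N * ((k : ℝ) + 1)) ^ ((a : ℝ) / ((M : ℝ) - 2)) :=
            Real.rpow_le_rpow (by positivity) hbR (by positivity)
        _ ≤ (N * ((k : ℝ) + 1)) ^ γ := Real.rpow_le_rpow_of_exponent_le hA ha
    have h3 : ((p ^ a : ℕ) : ℝ) ≤ 2 ^ a * (b : ℝ) ^ (M * a) := by
      have h4 : p ^ a ≤ 2 ^ a * b ^ (M * a) := by
        calc p ^ a ≤ (2 * b ^ M) ^ a := Nat.pow_le_pow_left hp a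
          _ = 2 ^ a * b ^ (M * a) := by rw [mul_pow, ← pow_mul]
      exact_mod_cast h4
    calc ((p ^ a : ℕ) : ℝ) ≤ 2 ^ a * (b : ℝ) ^ (M * a) := h3
      _ ≤ 2 ^ a * (N ^ γ * ((k : ℝ) + 1) ^ γ) :=
          mul_le_mul_of_nonneg_left h2 (by positivity)
      _ = 2 ^ a * N ^ γ * ((k : ℝ) + 1) ^ γ := by ring
  constructor
  · refine (key M (1 + ε) hMe1).trans ?_
    exact mul_le_mul_of_nonneg_right (le_max_left _ _) (by positivity)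
  · refine (key d ε hMd).trans ?_
    exact mul_le_mul_of_nonneg_right (le_max_right _ _) (by positivity)

end Pool.Agent.Helper650_Lossy
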