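import Pool.Agent.Helper650_Lossy.Defs

/-!
# Parameters of the reduction

Part 1: `b = b0 + 4 k + 3` satisfies the two conditions, so the filtered list is not empty, and
its head is the least such `b` (the list is increasing).  If it is not `b0` then `b - 1` does not satisfy
the second condition, so `b ^ e ≤ 2 ^ e (b - 1) ^ e ≤ 2 ^ e (4 k + 2)`.  Part 2: Bertrand's postulate
(`Nat.exists_prime_lt_and_le_two_mul`), and `isP_iff` in `Pool/Agent/Helper650_HSK/Prm.lean`.  Part 3 and 4: as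
for `uPoly_findP` in that file.
-/

namespace Pool.Agent.Helper650_Lossy

open Pool.Agent.NPC Pool.Agent.Helper650_HSK
open List (range)

theorem h155_headD_le {l : List ℕ} (hl : l.Pairwise (· < ·)) {x : ℕ} (hx : x ∈ l) :
    l.headD 0 ≤ x := by
  cases l with
  | nil => simp
  | cons a l =>
    rw [List.headD_cons]
    rcases List.mem_cons.1 hx with h | h
    · exact h.ge
    · exact ((List.pairwise_cons.1 hl).1 x h).le

/-- Main statement 1 of this file. -/
theorem bb_spec (e b0 k : ℕ) (he : 1 ≤ e) (hb0 : 2 ≤ b0) : b0 ≤ bb e b0 k ∧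
    4 * k + 2 < bb e b0 k ^ e ∧ bb e b0 k ^ e ≤ (b0 ^ e + 4 * 2 ^ e) * (k + 1) := by
  obtain ⟨l, hl⟩ : ∃ l, l = (range (b0 + 4 * k + 4)).filter
    (fun b => decide (b0 ≤ b) && decide (4 * k + 2 < b ^ e)) := ⟨_, rfl⟩
  have hmem : ∀ b, b ∈ l ↔ b < b0 + 4 * k + 4 ∧ b0 ≤ b ∧ 4 * k + 2 < b ^ e := by
    intro b
    rw [hl, List.mem_filter, List.mem_range, Bool.and_eq_true, decide_eq_true_iff,
      decide_eq_true_iff]
  have hself : ∀ n : ℕ, n ≤ n ^ e := fun n => Nat.le_self_pow (by omega) n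
  have hne : l ≠ [] := by
    apply List.ne_nil_of_mem (a := b0 + 4 * k + 3)
    rw [hmem]
    refine ⟨by omega, by omega, ?_⟩
    have := hself (b0 + 4 * k + 3)
    omega
  have hsort : l.Pairwise (· < ·) := by
    rw [hl]
    exact List.Pairwise.filter _ List.pairwise_lt_range
  have hbb : bb e b0 k = l.headD 0 := by rw [hl, bb]
  have hin := (hmem _).1 (headD_mem hne)
  rw [← hbb] at hin
  obtain ⟨h1, h2, h3⟩ := hin
  refine ⟨h2, h3, ?_⟩
  rcases Nat.eq_or_lt_of_le h2 with h4 | h4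
  · rw [← h4]
    calc b0 ^ e ≤ b0 ^ e + 4 * 2 ^ e := Nat.le_add_right _ _
      _ = (b0 ^ e + 4 * 2 ^ e) * 1 := (mul_one _).symm
      _ ≤ (b0 ^ e + 4 * 2 ^ e) * (k + 1) := Nat.mul_le_mul_left _ (by omega)
  · have h5 : ¬ (bb e b0 k - 1) ∈ l := by
      intro h6
      have := h155_headD_le hsort h6
      rw [← hbb] at this
      omega
    have h7 : (bb e b0 k - 1) ^ e ≤ 4 * k + 2 := by
      by_contra hcon
      exact h5 ((hmem _).2 ⟨by omega, by omega, by omega⟩)
    calc bb e b0 k ^ e ≤ (2 * (bb e b0 k - 1)) ^ e := Nat.pow_le_pow_left (by omega) e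
      _ = 2 ^ e * (bb e b0 k - 1) ^ e := by rw [mul_pow]
      _ ≤ 2 ^ e * (4 * (k + 1)) := Nat.mul_le_mul_left _ (by omega)
      _ = 4 * 2 ^ e * (k + 1) := by ring
      _ ≤ (b0 ^ e + 4 * 2 ^ e) * (k + 1) := Nat.mul_le_mul_right _ (Nat.le_add_left _ _)

/-- Main statement 2 of this file. -/
theorem pp_spec (M b : ℕ) (hb : 1 ≤ b) : (pp M b).Prime ∧ b ^ M ≤ pp M b ∧
    pp M b ≤ 2 * b ^ M := by
  obtain ⟨l, hl⟩ : ∃ l, l = (range (2 * b ^ M + 1)).filter
    (fun q => isP q && decide (b ^ M ≤ q)) := ⟨_, rfl⟩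
  have hmem : ∀ q, q ∈ l ↔ q < 2 * b ^ M + 1 ∧ q.Prime ∧ b ^ M ≤ q := by
    intro q
    rw [hl, List.mem_filter, List.mem_range, Bool.and_eq_true, decide_eq_true_iff, isP_iff]
  have hpos : b ^ M ≠ 0 := (Nat.pow_pos (by omega)).ne'
  obtain ⟨q, hq1, hq2, hq3⟩ := Nat.exists_prime_lt_and_le_two_mul (b ^ M) hpos
  have hne : l ≠ [] := List.ne_nil_of_mem ((hmem q).2 ⟨by omega, hq1, hq2.le⟩)
  have hpp : pp M b = l.headD 0 := by rw [hl, pp]
  have hin := (hmem _).1 (headD_mem hne)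
  rw [← hpp] at hin
  exact ⟨hin.2.1, hin.2.2, by omega⟩

theorem h155_headD_filter_le (n : ℕ) (P : ℕ → Bool) : ((range (n + 1)).filter P).headD 0 ≤ n := by
  by_cases h : (range (n + 1)).filter P = []
  · rw [h]
    simp
  · have h1 := headD_mem h
    have h2 := List.mem_range.1 (List.mem_filter.1 h1).1
    omega

theorem h155_uPoly_pow {α : Type} [TEnc α] {f : α → ℕ} (hf : UPoly f) :
    ∀ n : ℕ, UPoly (fun a => f a ^ n)
  | 0 => by simpa using UPoly.const 1
  | n + 1 => by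
    simp only [pow_succ]
    exact (h155_uPoly_pow hf n).mul hf

/-- Main statement 3 of this file. -/
theorem uPoly_bb {α : Type} [TEnc α] {k : α → ℕ} (e b0 : ℕ) (hk : UPoly k) :
    UPoly (fun a => bb e b0 (k a)) := by
  have hu : UPoly (fun a => b0 + 4 * k a + 3) :=
    ((UPoly.const b0).add ((UPoly.const 4).mul hk)).add (UPoly.const 3)
  refine UPoly.of_le ?_ hu (fun a => h155_headD_filter_le _ _)
  have hr : Poly (fun a => List.range (b0 + 4 * k a + 3 + 1)) := (hu.add (UPoly.const 1)).range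
  have hkp : Poly k := hk.toPoly
  have hq : Poly (fun x : α × ℕ => decide (b0 ≤ x.2) && decide (4 * k x.1 + 2 < x.2 ^ e)) := by
    have hs : Poly (fun x : α × ℕ => x.2) := Poly.snd Poly.id
    have hk1 : Poly (fun x : α × ℕ => k x.1) := hkp.comp (Poly.fst Poly.id)
    have hpow : Poly (fun x : α × ℕ => x.2 ^ e) := poly_powc hs e
    fun_prop
  have hf := Poly.filter (p := fun a n => decide (b0 ≤ n) && decide (4 * k a + 2 < n ^ e)) hr hq
  have hh := Poly.head? hf
  refine (Poly.optGetD hh (NPC.Poly.const 0)).congr fun a => ?_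
  unfold bb
  rw [List.headD_eq_head?_getD]

/-- Main statement 4 of this file. -/
theorem uPoly_pp {α : Type} [TEnc α] {b : α → ℕ} (M : ℕ) (hb : UPoly b) :
    UPoly (fun a => pp M (b a)) := by
  have hbM : UPoly (fun a => b a ^ M) := h155_uPoly_pow hb M
  have hu : UPoly (fun a => 2 * b a ^ M) := (UPoly.const 2).mul hbM
  refine UPoly.of_le ?_ hu (fun a => h155_headD_filter_le _ _)
  have hr : Poly (fun a => List.range (2 * b a ^ M + 1)) := (hu.add (UPoly.const 1)).range
  have hq : Poly (fun x : α × ℕ => (isP (min x.2 (2 * b x.1 ^ M)) && decide (b x.1 ^ M ≤ x.2))) := by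
    have hs : Poly (fun x : α × ℕ => x.2) := Poly.snd Poly.id
    have hp1 : Poly (fun x : α × ℕ => isP (min x.2 (2 * b x.1 ^ M))) :=
      poly_isP (R544.uPoly_min hs (hu.comp (Poly.fst Poly.id)))
    have hk1 : Poly (fun x : α × ℕ => b x.1 ^ M) := hbM.toPoly.comp (Poly.fst Poly.id)
    fun_prop
  have hf := Poly.filter (p := fun a n => (isP (min n (2 * b a ^ M)) && decide (b a ^ M ≤ n))) hr hq
  have hh := Poly.head? hf
  refine (Poly.optGetD hh (NPC.Poly.const 0)).congr fun a => ?_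
  unfold pp
  rw [List.headD_eq_head?_getD]
  congr 2
  apply List.filter_congr
  intro n hn
  have : n ≤ 2 * b a ^ M := by
    have := List.mem_range.1 hn
    omega
  rw [min_eq_left this]

end Pool.Agent.Helper650_Lossy

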